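import Pool.Agent.TH826.MK.Tori
set_option autoImplicit false

/-!
Two facts on the regulator integral: it vanishes for functions which are invariant under a
reflection, and its value if all but one of the functions are the coordinates of a product of unit
circles.
-/

namespace Pool.Agent.Y797.HC

open MeasureTheory Set

open Pool.Agent.TH826.MK

variable {d : ℕ}

/-- the map `θ_i ↦ 1 - θ_i` -/
def refl (i : Fin d) (θ : Fin d → ℝ) : Fin d → ℝ := fun j => if j = i then 1 - θ j else θ j

theorem hasFDerivAt_refl (i : Fin d) (θ : Fin d → ℝ) :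
    HasFDerivAt (refl i) (ContinuousLinearMap.pi fun j =>
      (if j = i then (-1 : ℝ) else 1) • ContinuousLinearMap.proj (R := ℝ) (φ := fun _ : Fin d => ℝ) j)
      θ := by
  rw [hasFDerivAt_pi']
  intro j
  have h : HasFDerivAt (fun θ : Fin d → ℝ => θ j)
      (ContinuousLinearMap.proj (R := ℝ) (φ := fun _ : Fin d => ℝ) j) θ := hasFDerivAt_apply j θ
  by_cases hj : j = i
  · have h1 := h.const_sub 1
    have e : (fun x : Fin d → ℝ => refl i x j) = fun x => 1 - x j := by
      funext x; simp [refl, hj]
    rw [e]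
    refine h1.congr_fderiv ?_
    ext x
    simp [hj]
  · have e : (fun x : Fin d → ℝ => refl i x j) = fun x => x j := by
      funext x; simp [refl, hj]
    rw [e]
    refine h.congr_fderiv ?_
    ext x
    simp [hj]

theorem lw_refl {g : (Fin d → ℝ) → ℂ} (hg : Good g) {i : Fin d} (h : ∀ θ, g (refl i θ) = g θ)
    (j : Fin d) (θ : Fin d → ℝ) : lw g j (refl i θ) = (if j = i then -1 else 1) * lw g j θ := by
  unfold lw
  rw [h]
  have h1 : HasFDerivAt g (fderiv ℝ g (refl i θ)) (refl i θ) :=
    ((hg.smooth.differentiable (by norm_num)) _).hasFDerivAt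
  have h2 := h1.comp θ (hasFDerivAt_refl i θ)
  have e : g ∘ refl i = g := funext h
  rw [e] at h2
  rw [h2.fderiv]
  rw [ContinuousLinearMap.comp_apply]
  have e2 : (ContinuousLinearMap.pi fun k =>
      (if k = i then (-1 : ℝ) else 1) • ContinuousLinearMap.proj (R := ℝ)
        (φ := fun _ : Fin d => ℝ) k) (Pi.single j 1) =
      (if j = i then (-1 : ℝ) else 1) • Pi.single j 1 := by
    ext k
    rw [ContinuousLinearMap.pi_apply]
    by_cases hk : k = j
    · subst hk
      split_ifs <;> simp
    · split_ifs <;> simp [Pi.single_eq_of_ne hk]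
  rw [e2, map_smul]
  by_cases hj : j = i <;> simp [hj, neg_div]

theorem tl_refl (i : Fin d) (y : Fin (d + 1) → ℝ) : tl d (refl i.succ y) = refl i (tl d y) := by
  funext j
  show refl i.succ y j.succ = refl i (tl d y) j
  have e : tl d y j = y j.succ := rfl
  by_cases hj : j = i
  · subst hj; simp [refl, e]
  · simp [refl, e, hj]

theorem integrand_refl {g : Fin (d + 1) → (Fin d → ℝ) → ℂ} (hg : ∀ l, Good (g l)) {i : Fin d}
    (h : ∀ l θ, g l (refl i θ) = g l θ) (y : Fin (d + 1) → ℝ) :
    integrand g (refl i.succ y) = - integrand g y := by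
  have e : (Matrix.of fun l => grow (g l) (refl i.succ y)) = Matrix.of fun l j =>
      (if j = i.succ then (-1 : ℂ) else 1) * (Matrix.of fun l => grow (g l) y) l j := by
    ext l j
    refine Fin.cases ?_ (fun j => ?_) j
    · simp only [Matrix.of_apply]
      rw [grow_zero, grow_zero, tl_refl, h, if_neg (Fin.succ_ne_zero i).symm, one_mul]
    · simp only [Matrix.of_apply]
      rw [grow_succ, grow_succ, tl_refl, lw_refl (hg l) (h l)]
      have e0 : refl i.succ y 0 = y 0 := by
        simp [refl, (Fin.succ_ne_zero i).symm]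
      rw [e0]
      by_cases hj : j = i
      · subst hj
        simp
        ring
      · simp [hj]
  unfold integrand
  rw [e, Matrix.det_mul_row, Finset.prod_ite_eq' Finset.univ i.succ (fun _ => (-1 : ℂ)),
    if_pos (Finset.mem_univ _)]
  rw [neg_one_mul, mul_neg, Complex.neg_re]

theorem measurePreserving_refl (i : Fin d) : MeasurePreserving (refl i) volume volume := by
  have h : MeasurePreserving (fun (a : Fin d → ℝ) (j : Fin d) =>
      (fun j => (if j = i then fun x : ℝ => 1 - x else id : ℝ → ℝ)) j (a j))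
      volume volume := by
    refine volume_preserving_pi fun j => ?_
    by_cases hj : j = i
    · simp only [hj, if_true]
      exact Measure.measurePreserving_sub_left volume 1
    · simp only [hj, if_false]
      exact MeasurePreserving.id volume
  convert h using 1
  funext a j
  by_cases hj : j = i <;> simp [refl, hj]

theorem refl_refl (i : Fin d) (θ : Fin d → ℝ) : refl i (refl i θ) = θ := by
  funext j
  by_cases hj : j = i <;> simp [refl, hj]

theorem refl_mem_Icc (i : Fin d) {θ : Fin d → ℝ} (h : θ ∈ Icc (0 : Fin d → ℝ) 1) :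
    refl i θ ∈ Icc (0 : Fin d → ℝ) 1 := by
  refine ⟨fun j => ?_, fun j => ?_⟩
  · have h1 := h.2 j
    have h2 := h.1 j
    by_cases hj : j = i
    · simp only [refl, hj, if_true, Pi.zero_apply]
      subst hj
      simp only [Pi.one_apply] at h1
      linarith
    · simpa [refl, hj] using h2
  · have h1 := h.2 j
    have h2 := h.1 j
    by_cases hj : j = i
    · simp only [refl, hj, if_true, Pi.one_apply]
      subst hj
      simp only [Pi.zero_apply] at h2
      linarith
    · simpa [refl, hj] using h1

/-- The regulator integral vanishes if all functions are invariant under the reflection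
`θ_i ↦ 1 - θ_i`. -/
theorem pairing_refl {g : Fin (d + 1) → (Fin d → ℝ) → ℂ} (hg : ∀ l, Good (g l)) {i : Fin d}
    (h : ∀ l θ, g l (refl i θ) = g l θ) : pairing g = 0 := by
  have hemb : MeasurableEmbedding (refl (d := d + 1) i.succ) := by
    have hm := (measurePreserving_refl i.succ).measurable
    exact (MeasurableEquiv.mk ⟨refl i.succ, refl i.succ, refl_refl _, refl_refl _⟩ hm
      hm).measurableEmbedding
  have h1 := (measurePreserving_refl (d := d + 1) i.succ).setIntegral_preimage_emb hemb
    (integrand g) (Icc 0 1)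
  have h2 : refl i.succ ⁻¹' (Icc (0 : Fin (d + 1) → ℝ) 1) = Icc 0 1 := by
    ext y
    constructor
    · intro hy
      have := refl_mem_Icc i.succ hy
      rwa [refl_refl] at this
    · exact fun hy => refl_mem_Icc i.succ hy
  rw [h2] at h1
  simp only [integrand_refl hg h, integral_neg] at h1
  unfold pairing
  linarith

theorem good_circ (i : Fin d) : Good fun θ : Fin d → ℝ => circ 1 (θ i) where
  smooth := (contDiff_circ 1).comp (contDiff_apply ℝ ℝ i)
  ne_zero θ := by
    rw [← norm_pos_iff, norm_circ zero_le_one]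
    exact one_pos

theorem lw_circ (i j : Fin d) (θ : Fin d → ℝ) : lw (fun θ : Fin d → ℝ => circ 1 (θ i)) j θ =
    if j = i then 2 * Real.pi * Complex.I else 0 := by
  unfold lw
  have h0 : HasFDerivAt (fun θ : Fin d → ℝ => θ i)
      (ContinuousLinearMap.proj (R := ℝ) (φ := fun _ : Fin d => ℝ) i) θ := hasFDerivAt_apply i θ
  have h1 := HasFDerivAt.comp (g := circ 1) (f := fun θ : Fin d → ℝ => θ i) θ
    (hasDerivAt_circ 1 (θ i)).hasFDerivAt h0
  have h2 : (fun θ : Fin d → ℝ => circ 1 (θ i)) = circ 1 ∘ fun θ : Fin d → ℝ => θ i := rfl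
  rw [h2, h1.fderiv, Function.comp_apply]
  have hne : circ 1 (θ i) ≠ 0 := (good_circ i).ne_zero θ
  by_cases hj : j = i
  · subst hj
    simp
    field_simp
  · simp [hj, Pi.single_eq_of_ne (Ne.symm hj)]

theorem integrand_circ {h : (Fin d → ℝ) → ℂ} (y : Fin (d + 1) → ℝ) :
    integrand (Fin.cons h fun i θ => circ 1 (θ i) : Fin (d + 1) → (Fin d → ℝ) → ℂ) y =
      (2 * Real.pi) ^ d * Real.log ‖h (tl d y)‖ := by
  unfold integrand
  have hrow : ∀ (i : Fin d) (j : Fin d), grow (fun θ : Fin d → ℝ => circ 1 (θ i)) y j.succ =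
      if j = i then 2 * Real.pi * Complex.I else 0 := by
    intro i j
    rw [grow_succ, lw_circ]
    by_cases hj : j = i
    · simp [hj]
      ring
    · simp [hj]
  have h0 : ∀ i : Fin d, grow (fun θ : Fin d → ℝ => circ 1 (θ i)) y 0 = 0 := by
    intro i
    rw [grow_zero, norm_circ zero_le_one, Real.log_one, Complex.ofReal_zero]
  rw [Matrix.det_succ_column_zero, Fin.sum_univ_succ]
  rw [Finset.sum_eq_zero (s := Finset.univ) (f := fun i : Fin d => _) (fun i _ => by
    simp only [Matrix.of_apply, Fin.cons_succ]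
    rw [h0, mul_zero, zero_mul]), add_zero]
  have hsub : (Matrix.of fun l => grow ((Fin.cons h fun i θ => circ 1 (θ i) :
      Fin (d + 1) → (Fin d → ℝ) → ℂ) l) y).submatrix (Fin.succAbove 0) Fin.succ =
      Matrix.diagonal fun _ : Fin d => (2 * Real.pi * Complex.I : ℂ) := by
    ext i j
    simp only [Matrix.submatrix_apply, Fin.succAbove_zero, Matrix.of_apply, Fin.cons_succ]
    rw [hrow, Matrix.diagonal_apply]
    by_cases hj : j = i
    · subst hj; simp
    · rw [if_neg hj, if_neg (Ne.symm hj)]
  rw [hsub, Matrix.det_diagonal, Finset.prod_const, Finset.card_univ, Fintype.card_fin]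
  simp only [Matrix.of_apply, Fin.cons_zero, Fin.val_zero, pow_zero, one_mul]
  rw [grow_zero]
  have e : (-Complex.I) ^ d * ((Real.log ‖h (tl d y)‖ : ℂ) * (2 * Real.pi * Complex.I) ^ d) =
      (((2 * Real.pi) ^ d * Real.log ‖h (tl d y)‖ : ℝ) : ℂ) := by
    have e1 : (-Complex.I) * (2 * Real.pi * Complex.I) = 2 * Real.pi := by
      linear_combination (-2 * Real.pi : ℂ) * Complex.I_mul_I
    rw [mul_left_comm, ← mul_pow, e1]
    push_cast
    ring
  rw [e, Complex.ofReal_re]

/-- The regulator integral if all but one of the functions are the coordinates of a product of unit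
circles. -/
theorem pairing_circ {h : (Fin d → ℝ) → ℂ} : pairing (Fin.cons h fun i θ => circ 1 (θ i)) =
    ∫ y in Icc (0 : Fin (d + 1) → ℝ) 1, (2 * Real.pi) ^ d * Real.log ‖h (tl d y)‖ := by
  unfold pairing
  simp only [integrand_circ]

theorem pairing_circ_pos {h : (Fin d → ℝ) → ℂ} (hg : Good h) (h1 : ∀ θ, 1 < ‖h θ‖) :
    0 < pairing (Fin.cons h fun i θ => circ 1 (θ i)) := by
  rw [pairing_circ]
  have hc : Continuous fun y : Fin (d + 1) → ℝ => (2 * Real.pi) ^ d * Real.log ‖h (tl d y)‖ := by
    refine continuous_const.mul (Continuous.log ?_ fun y => ?_)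
    · exact (hg.smooth.continuous.comp (tl d).continuous).norm
    · exact norm_ne_zero_iff.2 (hg.ne_zero _)
  have hpos : ∀ y : Fin (d + 1) → ℝ, 0 < (2 * Real.pi) ^ d * Real.log ‖h (tl d y)‖ := fun y =>
    mul_pos (by positivity) (Real.log_pos (h1 _))
  rw [setIntegral_pos_iff_support_of_nonneg_ae]
  · have e : Function.support (fun y : Fin (d + 1) → ℝ =>
        (2 * Real.pi) ^ d * Real.log ‖h (tl d y)‖) = univ := by
      ext y
      simp only [Function.mem_support, mem_univ, iff_true]
      exact (hpos y).ne'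
    rw [e, univ_inter]
    rw [Real.volume_Icc_pi]
    simp
  · exact Filter.Eventually.of_forall fun y => (hpos y).le
  · exact hc.continuousOn.integrableOn_compact isCompact_Icc

theorem pairing_circ_inv {h : (Fin d → ℝ) → ℂ} :
    pairing (Fin.cons (fun θ => (h θ)⁻¹) fun i θ => circ 1 (θ i)) =
      - pairing (Fin.cons h fun i θ => circ 1 (θ i)) := by
  rw [pairing_circ, pairing_circ, ← integral_neg]
  congr 1
  funext y
  rw [norm_inv, Real.log_inv]
  ring

end Pool.Agent.Y797.HC
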