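import Pool.Agent.Y797.HC.Ev
import Pool.Agent.Y797.HC.Pr
set_option autoImplicit false

/-!
The tori of a circuit, and the regulators of the symbols on them.
-/

namespace Pool.Agent.Y797.HC

open Pool.Agent.TH826.MK

open Pool.Agent.TH826.UH (Sepd sepd_dist)

section zeta

theorem re_sq_pos {w : ℂ} (hw : 2 < ‖w‖) : 0 < (TH826.MK.sq w).re := by
  have h := slit_of_lt hw
  unfold TH826.MK.sq
  rw [Complex.exp_re]
  refine mul_pos (Real.exp_pos _) (Real.cos_pos_of_mem_Ioo ?_)
  have h1 : (Complex.log (1 - 4 / w ^ 2) / 2).im = (1 - 4 / w ^ 2).arg / 2 := by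
    rw [Complex.div_ofNat_im, Complex.log_im]
  rw [h1]
  have h2 := Complex.neg_pi_lt_arg (1 - 4 / w ^ 2)
  have h3 : (1 - 4 / w ^ 2).arg < Real.pi :=
    lt_of_le_of_ne (Complex.arg_le_pi _) (Complex.slitPlane_arg_ne_pi h)
  constructor <;> linarith

theorem one_lt_norm_zeta {w : ℂ} (hw : 2 < ‖w‖) : 1 < ‖zeta w‖ := by
  have hsq := sq_sq hw
  have hre := re_sq_pos hw
  have h0 : w ≠ 0 := by
    rintro rfl
    rw [norm_zero] at hw
    linarith
  set s := TH826.MK.sq w with hsdef
  have hz : zeta w = w * (1 + s) / 2 := by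
    unfold zeta hs
    ring
  have hprod : zeta w * (w * (1 - s) / 2) = 1 := by
    rw [hz]
    have : w * (1 + s) / 2 * (w * (1 - s) / 2) = w ^ 2 * (1 - s ^ 2) / 4 := by ring
    rw [this, hsq]
    field_simp
    ring
  have hlt : ‖w * (1 - s) / 2‖ < ‖zeta w‖ := by
    rw [hz, norm_div, norm_div, norm_mul, norm_mul]
    have h1 : ‖1 - s‖ < ‖1 + s‖ := by
      have h2 : ‖1 - s‖ ^ 2 < ‖1 + s‖ ^ 2 := by
        rw [← Complex.normSq_eq_norm_sq, ← Complex.normSq_eq_norm_sq, Complex.normSq_apply,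
          Complex.normSq_apply]
        simp only [Complex.sub_re, Complex.one_re, Complex.sub_im, Complex.one_im,
          Complex.add_re, Complex.add_im]
        nlinarith
      exact lt_of_pow_lt_pow_left₀ 2 (norm_nonneg _) h2
    have h3 : 0 < ‖w‖ := norm_pos_iff.2 h0
    have h4 : 0 < ‖(2 : ℂ)‖ := by norm_num
    gcongr
  have h4 := congrArg norm hprod
  rw [norm_mul, norm_one] at h4
  by_contra hcon
  rw [not_lt] at hcon
  have h5 : ‖zeta w‖ * ‖w * (1 - s) / 2‖ < 1 := by
    have h6 : ‖w * (1 - s) / 2‖ < 1 := hlt.trans_le hcon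
    have h7 : 0 ≤ ‖zeta w‖ := norm_nonneg _
    calc ‖zeta w‖ * ‖w * (1 - s) / 2‖ ≤ 1 * ‖w * (1 - s) / 2‖ := by gcongr
      _ < 1 := by rw [one_mul]; exact h6
  linarith

end zeta

section loops

/-- `exp (2πiθ) + exp (-2πiθ)` -/
noncomputable def uu (θ : ℝ) : ℂ := circ 1 θ + (circ 1 θ)⁻¹

theorem circ_ne (θ : ℝ) : circ 1 θ ≠ 0 := by
  rw [← norm_pos_iff, norm_circ zero_le_one]
  exact one_pos

theorem norm_uu_le (θ : ℝ) : ‖uu θ‖ ≤ 2 := by
  unfold uu
  refine (norm_add_le _ _).trans ?_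
  rw [norm_inv, norm_circ zero_le_one]
  norm_num

theorem circ_one_sub (θ : ℝ) : circ 1 (1 - θ) = (circ 1 θ)⁻¹ := by
  refine eq_inv_of_mul_eq_one_left ?_
  unfold circ
  rw [Complex.ofReal_one, one_mul, one_mul, ← Complex.exp_add, ← Complex.exp_two_pi_mul_I]
  congr 1
  push_cast
  ring

theorem uu_one_sub (θ : ℝ) : uu (1 - θ) = uu θ := by
  unfold uu
  rw [circ_one_sub, inv_inv, add_comm]

theorem uu_add_one (θ : ℝ) : uu (θ + 1) = uu θ := by
  unfold uu
  rw [circ_add_one]

theorem contDiff_uu : ContDiff ℝ 2 uu :=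
  (contDiff_circ 1).add ((contDiff_circ 1).inv circ_ne)

theorem exists_loop {F : Polynomial ℂ} {g : ℕ} {b : Fin (g + 1) → ℂ}
    (hF : F = ∏ j, (Polynomial.X - Polynomial.C (b j)))
    (hsep : ∀ i j, i ≠ j → 5 ≤ ‖b i - b j‖) :
    ∃ Y : ℝ → ℂ, ContDiff ℝ 2 Y ∧ (∀ θ, Y (θ + 1) = Y θ) ∧ (∀ θ, Y (1 - θ) = Y θ) ∧
      (∀ θ, F.eval (Y θ) = uu θ) ∧ (∀ θ, ‖Y θ - b 0‖ < 5 / 2) ∧
      ∀ θ, (Polynomial.derivative F).eval (Y θ) ≠ 0 := by
  have hF' : F = Polynomial.C 0 + Polynomial.C 1 * ∏ j, (Polynomial.X - Polynomial.C (b j)) := by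
    rw [Polynomial.C_0, Polynomial.C_1, zero_add, one_mul]
    exact hF
  have hpow : (2 : ℝ) * 2 ^ (g + 1) < 5 ^ (g + 1) := by
    have h1 : (2 : ℝ) ^ g ≤ 5 ^ g := pow_le_pow_left₀ (by norm_num) (by norm_num) _
    have h2 : (0 : ℝ) < 2 ^ g := by positivity
    rw [pow_succ, pow_succ]
    linarith
  obtain ⟨η, H⟩ := sepd_dist (D := 5) one_ne_zero hF' (by norm_num) hsep (by simp) (by
    rw [norm_zero, add_zero, norm_one, one_mul]
    exact hpow)
  obtain ⟨x, han, hdisc, hprod, hder⟩ := H.exists_branches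
  have hub : ∀ θ, uu θ ∈ Metric.ball (0 : ℂ) (2 + η) := by
    intro θ
    rw [mem_ball_zero_iff]
    exact (norm_uu_le θ).trans_lt (by linarith [H.eta])
  refine ⟨fun θ => x 0 (uu θ), ?_, fun θ => ?_, fun θ => ?_, fun θ => ?_, fun θ => ?_,
    fun θ => ?_⟩
  · rw [contDiff_iff_contDiffAt]
    intro θ
    exact ((han 0 _ (hub θ)).contDiffAt.restrict_scalars ℝ).comp θ contDiff_uu.contDiffAt
  · simp only [uu_add_one]
  · simp only [uu_one_sub]
  · have h1 := congrArg (fun p => p.eval (x 0 (uu θ))) (hprod _ (hub θ))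
    simp only [Polynomial.eval_sub, Polynomial.eval_C, Polynomial.eval_mul,
      Polynomial.eval_prod, Polynomial.eval_X] at h1
    rw [Finset.prod_eq_zero (Finset.mem_univ 0) (by simp), mul_zero] at h1
    exact sub_eq_zero.1 h1
  · exact hdisc 0 _ (hub θ)
  · exact hder 0 _ (hub θ)

end loops

section tori

variable {K : Type*} [Field K] {σ : K →+* ℂ} {n m : ℕ} {A : Arr K n m}

theorem isPt_zeta {e : Fin m} {t : Fin n → ℂ} (h : 2 < ‖A.val σ e t‖) :
    (zeta (A.val σ e t))⁻¹ ^ 2 - A.val σ e t * (zeta (A.val σ e t))⁻¹ + 1 = 0 := by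
  have h1 := zeta_eq h
  have h2 : zeta (A.val σ e t) ≠ 0 := by
    rw [← norm_pos_iff]
    exact one_pos.trans (one_lt_norm_zeta h)
  field_simp
  linear_combination h1

section data

variable (σ A) (C : Fin (n + 1) → Fin m) (fl : Bool) (t : (Fin n → ℝ) → Fin n → ℂ)

open Classical in
/-- the coordinates `z_e` of the points of the torus -/
noncomputable def zz (θ : Fin n → ℝ) (e : Fin m) : ℂ :=
  if h : ∃ i : Fin n, C i.succ = e then circ 1 (θ h.choose)
  else if fl = true ∧ e = C 0 then (zeta (A.val σ e (t θ)))⁻¹ else zeta (A.val σ e (t θ))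

variable {σ A C fl t}

theorem zz_succ (hC : Function.Injective C) (θ : Fin n → ℝ) (i : Fin n) :
    zz σ A C fl t θ (C i.succ) = circ 1 (θ i) := by
  have h : ∃ i' : Fin n, C i'.succ = C i.succ := ⟨i, rfl⟩
  unfold zz
  rw [dif_pos h]
  have h1 : h.choose = i := Fin.succ_injective _ (hC h.choose_spec)
  rw [h1]

theorem zz_of_not {θ : Fin n → ℝ} {e : Fin m} (he : ∀ i : Fin n, C i.succ ≠ e) :
    zz σ A C fl t θ e = if fl = true ∧ e = C 0 then (zeta (A.val σ e (t θ)))⁻¹
      else zeta (A.val σ e (t θ)) := by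
  unfold zz
  rw [dif_neg (by push Not; exact he)]

theorem zz_of_ne {θ : Fin n → ℝ} {e : Fin m} (he : ∀ i : Fin n, C i.succ ≠ e) (h0 : e ≠ C 0) :
    zz σ A C fl t θ e = zeta (A.val σ e (t θ)) := by
  rw [zz_of_not he, if_neg (fun h => h0 h.2)]

theorem succ_ne (hC : Function.Injective C) (i : Fin n) : C i.succ ≠ C 0 := fun h =>
  Fin.succ_ne_zero i (hC h)

theorem zz_zero_false (hC : Function.Injective C) (θ : Fin n → ℝ) :
    zz σ A C false t θ (C 0) = zeta (A.val σ (C 0) (t θ)) := by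
  rw [zz_of_not (succ_ne hC), if_neg (by simp)]

theorem zz_zero_true (hC : Function.Injective C) (θ : Fin n → ℝ) :
    zz σ A C true t θ (C 0) = (zeta (A.val σ (C 0) (t θ)))⁻¹ := by
  rw [zz_of_not (succ_ne hC), if_pos (by simp)]

end data

/-- the points of the torus in the affine space -/
structure TD (σ : K →+* ℂ) (A : Arr K n m) (C : Fin (n + 1) → Fin m)
    (t : (Fin n → ℝ) → Fin n → ℂ) : Prop where
  smooth : ∀ i, ContDiff ℝ 2 fun θ => t θ i
  per : ∀ θ i, t (θ + Pi.single i 1) = t θ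
  refl : ∀ θ i, t (refl i θ) = t θ
  val : ∀ θ (i : Fin n), A.val σ (C i.succ) (t θ) = uu (θ i)
  der : ∀ θ (i : Fin n), (Polynomial.derivative (A.F (C i.succ))).eval₂ σ
    (A.lin σ (C i.succ) (t θ)) ≠ 0
  far : ∀ θ (f : Fin m), (∀ i : Fin n, C i.succ ≠ f) → 2 < ‖A.val σ f (t θ)‖

/-- the points over the product of the loops -/
structure PD (σ : K →+* ℂ) (A : Arr K n m) (P : Fin n → Fin m)
    (t : (Fin n → ℝ) → Fin n → ℂ) : Prop where
  smooth : ∀ i, ContDiff ℝ 2 fun θ => t θ i
  per : ∀ θ i, t (θ + Pi.single i 1) = t θ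
  refl : ∀ θ i, t (refl i θ) = t θ
  val : ∀ θ i, A.val σ (P i) (t θ) = uu (θ i)
  der : ∀ θ i, (Polynomial.derivative (A.F (P i))).eval₂ σ (A.lin σ (P i) (t θ)) ≠ 0
  far : ∀ θ f, (∀ i, P i ≠ f) → 2 < ‖A.val σ f (t θ)‖

theorem exists_PD {P : Fin n → Fin m} (hB : A.Box σ P) : ∃ t, PD σ A P t := by
  obtain ⟨g, b, hF, hsep, hfar⟩ := hB.sep
  have hY := fun i : Fin n => exists_loop (hF i) (hsep i)
  choose Y h1 h2 h3 h4 h5 h6 using hY
  set M : Matrix (Fin n) (Fin n) ℂ := Matrix.of fun i k => σ (A.l (P i) k) with hM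
  have hdet : IsUnit M.det := by
    have e : M = (Matrix.of fun i k : Fin n => A.l (P i) k).map σ := rfl
    have e2 : M.det = σ (Matrix.of fun i k : Fin n => A.l (P i) k).det := by
      rw [e, RingHom.map_det]
      rfl
    rw [e2]
    exact IsUnit.mk0 _ ((map_ne_zero σ).2 hB.det)
  set X : (Fin n → ℝ) → Fin n → ℂ := fun θ i => Y i (θ i) with hX
  have hlin : ∀ θ (i : Fin n), A.lin σ (P i) (M⁻¹.mulVec (X θ)) = Y i (θ i) := by
    intro θ i
    have e : A.lin σ (P i) (M⁻¹.mulVec (X θ)) = (M.mulVec (M⁻¹.mulVec (X θ))) i := rfl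
    rw [e, Matrix.mulVec_mulVec, Matrix.mul_nonsing_inv _ hdet, Matrix.one_mulVec]
  refine ⟨fun θ => M⁻¹.mulVec (X θ), fun i => ?_, fun θ i => ?_, fun θ i => ?_, fun θ i => ?_,
    fun θ i => ?_, fun θ f hf => ?_⟩
  · have e : (fun θ => M⁻¹.mulVec (X θ) i) = fun θ => ∑ k, M⁻¹ i k * Y k (θ k) := rfl
    rw [e]
    exact ContDiff.sum fun k _ => contDiff_const.mul ((h1 k).comp (contDiff_apply ℝ ℝ k))
  · congr 1
    funext k
    simp only [hX]
    by_cases hk : k = i
    · subst hk
      rw [Pi.add_apply, Pi.single_eq_same, h2]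
    · rw [Pi.add_apply, Pi.single_eq_of_ne hk, add_zero]
  · congr 1
    funext k
    simp only [hX]
    by_cases hk : k = i
    · subst hk
      simp only [HC.refl, if_true]
      rw [h3]
    · simp only [HC.refl, hk, if_false]
  · have h7 := h4 i (θ i)
    rw [Polynomial.eval_map] at h7
    unfold Arr.val
    rw [hlin, h7]
  · have h7 := h6 i (θ i)
    rw [Polynomial.derivative_map, Polynomial.eval_map] at h7
    rw [hlin]
    exact h7
  · refine hfar _ (fun i => ?_) f hf
    rw [hlin]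
    exact h5 i _

theorem exists_TD {C : Fin (n + 1) → Fin m} (hB : A.Box σ fun i => C i.succ) :
    ∃ t, TD σ A C t := by
  obtain ⟨t, H⟩ := exists_PD hB
  exact ⟨t, H.smooth, H.per, H.refl, H.val, H.der, H.far⟩

variable {C : Fin (n + 1) → Fin m} {t : (Fin n → ℝ) → Fin n → ℂ}

theorem TD.isPt (H : TD σ A C t) (hC : Function.Injective C) (fl : Bool) (θ : Fin n → ℝ) :
    A.IsPt σ (t θ) (zz σ A C fl t θ) := by
  intro e
  by_cases he : ∃ i : Fin n, C i.succ = e
  · obtain ⟨i, rfl⟩ := he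
    rw [zz_succ hC, H.val]
    have h := circ_ne (θ i)
    unfold uu
    field_simp
    ring
  · push Not at he
    rw [zz_of_not he]
    split_ifs
    · exact isPt_zeta (H.far θ e he)
    · exact zeta_eq (H.far θ e he)

theorem TD.contDiff_zeta (H : TD σ A C t) {f : Fin m} (hf : ∀ i : Fin n, C i.succ ≠ f) :
    ContDiff ℝ 2 fun θ => zeta (A.val σ f (t θ)) := by
  have h1 : ContDiff ℝ 2 fun θ => A.val σ f (t θ) := by
    have h2 : ContDiff ℝ 2 fun θ => A.lin σ f (t θ) := by
      unfold Arr.lin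
      exact ContDiff.sum fun i _ => contDiff_const.mul (H.smooth i)
    unfold Arr.val
    simp only [Polynomial.eval₂_eq_sum_range]
    exact ContDiff.sum fun i _ => contDiff_const.mul (h2.pow i)
  rw [contDiff_iff_contDiffAt]
  intro θ
  exact ((contDiffAt_zeta (H.far θ f hf)).restrict_scalars ℝ).comp θ h1.contDiffAt

theorem TD.zeta_ne (H : TD σ A C t) {f : Fin m} (hf : ∀ i : Fin n, C i.succ ≠ f)
    (θ : Fin n → ℝ) : zeta (A.val σ f (t θ)) ≠ 0 := by
  rw [← norm_pos_iff]
  exact one_pos.trans (one_lt_norm_zeta (H.far θ f hf))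

theorem TD.contDiff_zz (H : TD σ A C t) (hC : Function.Injective C) (fl : Bool) (e : Fin m) :
    ContDiff ℝ 2 fun θ => zz σ A C fl t θ e := by
  by_cases he : ∃ i : Fin n, C i.succ = e
  · obtain ⟨i, rfl⟩ := he
    simp only [zz_succ hC]
    exact (good_circ i).smooth
  · push Not at he
    simp only [zz_of_not he]
    split_ifs
    · exact (H.contDiff_zeta he).inv (H.zeta_ne he)
    · exact H.contDiff_zeta he

theorem TD.zz_per (H : TD σ A C t) (hC : Function.Injective C) (fl : Bool) (θ : Fin n → ℝ)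
    (i : Fin n) : zz σ A C fl t (θ + Pi.single i 1) = zz σ A C fl t θ := by
  funext e
  by_cases he : ∃ i : Fin n, C i.succ = e
  · obtain ⟨k, rfl⟩ := he
    rw [zz_succ hC, zz_succ hC]
    by_cases hk : k = i
    · subst hk
      rw [Pi.add_apply, Pi.single_eq_same, circ_add_one]
    · rw [Pi.add_apply, Pi.single_eq_of_ne hk, add_zero]
  · push Not at he
    rw [zz_of_not he, zz_of_not he, H.per]

theorem TD.zz_refl (H : TD σ A C t) (hC : Function.Injective C) (fl : Bool) (θ : Fin n → ℝ)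
    (i : Fin n) {e : Fin m} (hi : C i.succ ≠ e) :
    zz σ A C fl t (HC.refl i θ) e = zz σ A C fl t θ e := by
  by_cases he : ∃ i : Fin n, C i.succ = e
  · obtain ⟨k, rfl⟩ := he
    have hk : k ≠ i := fun h => hi (by rw [h])
    rw [zz_succ hC, zz_succ hC]
    simp [HC.refl, hk]
  · push Not at he
    rw [zz_of_not he, zz_of_not he, H.refl]

/-- the torus -/
noncomputable def TD.tor (H : TD σ A C t) (hC : Function.Injective C) (fl : Bool) :
    Torus A.CRing n :=
  Arr.mkT (H.isPt hC fl) H.smooth (H.contDiff_zz hC fl) H.per (H.zz_per hC fl)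

theorem TD.tor_co (H : TD σ A C t) (hC : Function.Injective C) (fl : Bool) (θ : Fin n → ℝ)
    (s : Fin n ⊕ Fin m) : (H.tor hC fl).e θ (A.co s) = Sum.elim (t θ) (zz σ A C fl t θ) s :=
  (H.isPt hC fl θ).ev_co s

theorem TD.tor_cst (H : TD σ A C t) (hC : Function.Injective C) (fl : Bool) (θ : Fin n → ℝ)
    (y : K) : (H.tor hC fl).e θ (A.cst y) = σ y :=
  (H.isPt hC fl θ).ev_cst y

theorem TD.tor_fn (H : TD σ A C t) (hC : Function.Injective C) (fl : Bool) (e : Fin m) :
    (H.tor hC fl).fn (A.unit e : A.CRing) = fun θ => zz σ A C fl t θ e := by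
  funext θ
  exact H.tor_co hC fl θ (Sum.inr e)

theorem TD.good (H : TD σ A C t) (hC : Function.Injective C)
    (hdetC : (Matrix.of fun i k : Fin n => A.l (C i.succ) k).det ≠ 0) (fl : Bool) :
    A.Good σ (H.tor hC fl) := by
  refine ⟨H.tor_cst hC fl, fun θ => ?_⟩
  have e1 : (fun s => (H.tor hC fl).e θ (A.co s)) = Sum.elim (t θ) (zz σ A C fl t θ) := by
    funext s
    exact H.tor_co hC fl θ s
  rw [e1]
  set z := zz σ A C fl t θ with hz
  unfold Arr.SmoothAt
  rw [Fintype.linearIndependent_iff]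
  intro a ha
  have hinr : ∀ f, a f * (2 * z f - A.val σ f (t θ)) = 0 := by
    intro f
    have h1 := congrFun ha (Sum.inr f)
    simp only [Finset.sum_apply, Pi.smul_apply, smul_eq_mul, Pi.zero_apply] at h1
    rw [Finset.sum_eq_single f] at h1
    · rwa [A.pderiv_inr, if_pos rfl] at h1
    · intro e _ he
      rw [A.pderiv_inr, if_neg he, mul_zero]
    · exact fun h => absurd (Finset.mem_univ _) h
  have hout : ∀ f, (∀ i : Fin n, C i.succ ≠ f) → a f = 0 := by
    intro f hf
    refine (mul_eq_zero.1 (hinr f)).resolve_right fun h => ?_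
    have h1 := H.isPt hC fl θ f
    rw [← hz] at h1
    have h2 : A.val σ f (t θ) = 2 * z f := by linear_combination -h
    have h3 := H.far θ f hf
    have h4 : z f ^ 2 = 1 := by
      rw [h2] at h1
      linear_combination -h1
    have h5 : ‖z f‖ = 1 := by
      have h6 := congrArg norm h4
      rw [norm_pow, norm_one] at h6
      exact (pow_eq_one_iff_of_nonneg (norm_nonneg _) two_ne_zero).1 h6
    rw [h2, norm_mul, h5] at h3
    norm_num at h3
  have hinl : ∀ k : Fin n, ∑ i : Fin n, (a (C i.succ) *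
      ((Polynomial.derivative (A.F (C i.succ))).eval₂ σ (A.lin σ (C i.succ) (t θ)) *
        z (C i.succ))) * σ (A.l (C i.succ) k) = 0 := by
    intro k
    have h1 := congrFun ha (Sum.inl k)
    simp only [Finset.sum_apply, Pi.smul_apply, smul_eq_mul, Pi.zero_apply] at h1
    rw [← Finset.sum_subset (Finset.subset_univ (Finset.univ.image fun i : Fin n => C i.succ)),
      Finset.sum_image] at h1
    · simp only [A.pderiv_inl] at h1
      rw [← neg_eq_zero, ← Finset.sum_neg_distrib]
      rw [← h1]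
      exact Finset.sum_congr rfl fun i _ => by ring
    · intro i _ j _ hij
      exact Fin.succ_injective _ (hC hij)
    · intro f _ hf
      rw [hout f, zero_mul]
      intro i hi
      exact hf (Finset.mem_image.2 ⟨i, Finset.mem_univ _, hi⟩)
  have hdet : (Matrix.of fun i k : Fin n => σ (A.l (C i.succ) k)).det ≠ 0 := by
    have e2 : (Matrix.of fun i k : Fin n => σ (A.l (C i.succ) k)).det =
        σ (Matrix.of fun i k : Fin n => A.l (C i.succ) k).det := by
      rw [RingHom.map_det]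
      rfl
    rw [e2]
    exact (map_ne_zero σ).2 hdetC
  have hvec := Matrix.eq_zero_of_vecMul_eq_zero hdet (v := fun i : Fin n => a (C i.succ) *
      ((Polynomial.derivative (A.F (C i.succ))).eval₂ σ (A.lin σ (C i.succ) (t θ)) *
        z (C i.succ))) (by
    funext k
    exact hinl k)
  intro e
  by_cases he : ∃ i : Fin n, C i.succ = e
  · obtain ⟨i, rfl⟩ := he
    have h1 := congrFun hvec i
    simp only [Pi.zero_apply] at h1
    refine (mul_eq_zero.1 h1).resolve_right (mul_ne_zero (H.der θ i) ?_)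
    rw [hz, zz_succ hC]
    exact circ_ne _
  · push Not at he
    exact hout e he

theorem TD.reg_eq (H : TD σ A C t) (hC : Function.Injective C) (fl : Bool)
    (C' : Fin (n + 1) → Fin m) :
    (H.tor hC fl).reg (A.sym C') = pairing fun l θ => zz σ A C fl t θ (C' l) := by
  unfold Arr.sym
  rw [Torus.reg_symb]
  unfold Torus.pair
  simp only [H.tor_fn hC fl]

theorem TD.reg_false (H : TD σ A C t) (hC : Function.Injective C) :
    (H.tor hC false).reg (A.sym C) =
      pairing (Fin.cons (fun θ => zeta (A.val σ (C 0) (t θ))) fun i θ => circ 1 (θ i)) := by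
  rw [H.reg_eq]
  congr 1
  funext l
  refine Fin.cases ?_ (fun i => ?_) l
  · simp only [Fin.cons_zero, zz_zero_false hC]
  · simp only [Fin.cons_succ, zz_succ hC]

theorem TD.reg_true (H : TD σ A C t) (hC : Function.Injective C) :
    (H.tor hC true).reg (A.sym C) = - (H.tor hC false).reg (A.sym C) := by
  rw [H.reg_false, H.reg_eq, ← pairing_circ_inv]
  congr 1
  funext l
  refine Fin.cases ?_ (fun i => ?_) l
  · simp only [Fin.cons_zero, zz_zero_true hC]
  · simp only [Fin.cons_succ, zz_succ hC]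

theorem TD.reg_pos (H : TD σ A C t) (hC : Function.Injective C) :
    0 < (H.tor hC false).reg (A.sym C) := by
  rw [H.reg_false]
  exact pairing_circ_pos ⟨H.contDiff_zeta (succ_ne hC), H.zeta_ne (succ_ne hC)⟩
    fun θ => one_lt_norm_zeta (H.far θ _ (succ_ne hC))

theorem TD.reg_other (H : TD σ A C t) (hC : Function.Injective C)
    (C' : Fin (n + 1) → Fin m) (hC' : Function.Injective C')
    (hne : Set.range C ≠ Set.range C') :
    (H.tor hC true).reg (A.sym C') = (H.tor hC false).reg (A.sym C') := by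
  classical
  by_cases h0 : C 0 ∈ Set.range C'
  · have hex : ∃ i : Fin n, C i.succ ∉ Set.range C' := by
      by_contra hcon
      push Not at hcon
      refine hne ?_
      have hsub : Set.range C ⊆ Set.range C' := by
        rintro _ ⟨l, rfl⟩
        refine Fin.cases h0 (fun i => hcon i) l
      refine Set.eq_of_subset_of_ncard_le hsub ?_ (Set.toFinite _)
      rw [← Set.image_univ, ← Set.image_univ, Set.ncard_image_of_injective _ hC,
        Set.ncard_image_of_injective _ hC']
    obtain ⟨i, hi⟩ := hex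
    have key : ∀ fl, (H.tor hC fl).reg (A.sym C') = 0 := by
      intro fl
      rw [H.reg_eq]
      refine pairing_refl (i := i) (fun l => ?_) fun l θ => ?_
      · have := (H.tor hC fl).good (A.unit (C' l))
        rwa [H.tor_fn] at this
      · exact H.zz_refl hC fl θ i fun h => hi ⟨l, h.symm⟩
    rw [key, key]
  · rw [H.reg_eq, H.reg_eq]
    congr 1
    funext l θ
    have hl : C' l ≠ C 0 := fun h => h0 ⟨l, h⟩
    by_cases he : ∃ i : Fin n, C i.succ = C' l
    · obtain ⟨i, hi⟩ := he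
      rw [← hi, zz_succ hC, zz_succ hC]
    · push Not at he
      rw [zz_of_ne he hl, zz_of_ne he hl]

/-- The independence of the regulators of the symbols of different circuits. -/
theorem independent {N : ℕ} (D : Fin N → Fin (n + 1) → Fin m)
    (hD : ∀ k, Function.Injective (D k))
    (hdist : ∀ k k', Set.range (D k) = Set.range (D k') → k = k')
    (hB : ∀ k, A.Box σ fun i => D k i.succ)
    (a : Fin N → ℝ) (ha : ∀ T : Torus A.CRing n, A.Good σ T → ∑ k, a k * T.reg (A.sym (D k)) = 0) :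
    a = 0 := by
  funext k
  obtain ⟨t, H⟩ := exists_TD (hB k)
  have h1 := ha _ (H.good (hD k) (hB k).det false)
  have h2 := ha _ (H.good (hD k) (hB k).det true)
  have h3 : ∑ l, a l * (H.tor (hD k) true).reg (A.sym (D l)) -
      ∑ l, a l * (H.tor (hD k) false).reg (A.sym (D l)) =
      a k * (-2 * (H.tor (hD k) false).reg (A.sym (D k))) := by
    rw [← Finset.sum_sub_distrib, Finset.sum_eq_single k]
    · rw [H.reg_true (hD k)]
      ring
    · intro l _ hl
      rw [H.reg_other (hD k) (D l) (hD l) (fun h => hl (hdist k l h).symm), sub_self]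
    · exact fun h => absurd (Finset.mem_univ _) h
  rw [h1, h2, sub_zero] at h3
  have h4 := H.reg_pos (hD k)
  refine (mul_eq_zero.1 h3.symm).resolve_right ?_
  exact mul_ne_zero (by norm_num) h4.ne'

end tori

end Pool.Agent.Y797.HC
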