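import Mathlib
set_option autoImplicit false

/-!
Products of square roots are linearly independent if the products of the radicands are not squares.
-/

namespace Pool.Agent.Y797.HC

section eigen

variable {F V ι : Type*} [Field F] [AddCommGroup V] [Module F V]

/-- Simultaneous eigenvectors with different systems of eigenvalues are linearly independent. -/
theorem eigen_indep {G : Type*} (T : G → V →ₗ[F] V) (w : ι → V) (hw : ∀ i, w i ≠ 0)
    (χ : ι → G → F) (hχ : ∀ i g, T g (w i) = χ i g • w i)
    (hne : ∀ i j, i ≠ j → ∃ g, χ i g ≠ χ j g) : LinearIndependent F w := by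
  classical
  rw [linearIndependent_iff']
  intro s
  induction s using Finset.induction_on with
  | empty => intro c _ i hi; simp at hi
  | insert j s hj ih =>
    intro c hc
    rw [Finset.sum_insert hj] at hc
    have key : ∀ i ∈ s, c i = 0 := by
      intro i hi
      have hij : i ≠ j := fun h => hj (h ▸ hi)
      obtain ⟨g, hg⟩ := hne i j hij
      have h1 := congrArg (T g) hc
      rw [map_add, map_sum, map_zero, map_smul, hχ] at h1
      have h2 : ∑ k ∈ s, (c k * (χ k g - χ j g)) • w k = 0 := by
        have h3 : ∑ k ∈ s, (c k * (χ k g - χ j g)) • w k =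
            ∑ k ∈ s, T g (c k • w k) - χ j g • ∑ k ∈ s, c k • w k := by
          rw [Finset.smul_sum, ← Finset.sum_sub_distrib]
          refine Finset.sum_congr rfl fun k _ => ?_
          rw [map_smul, hχ, smul_smul, smul_smul, ← sub_smul]
          congr 1
          ring
        rw [h3]
        have h4 : ∑ k ∈ s, c k • w k = - (c j • w j) := by
          rw [add_comm] at hc
          exact eq_neg_of_add_eq_zero_left hc
        have h5 : ∑ k ∈ s, T g (c k • w k) = - (c j • χ j g • w j) := by
          rw [add_comm] at h1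
          exact eq_neg_of_add_eq_zero_left h1
        rw [h4, h5, smul_neg, smul_smul, smul_smul, mul_comm (c j)]
        abel
      have h6 := ih _ h2 i hi
      exact (mul_eq_zero.1 h6).resolve_right (sub_ne_zero.2 hg)
    intro i hi
    rcases Finset.mem_insert.1 hi with rfl | hi
    · rw [Finset.sum_eq_zero fun k hk => by rw [key k hk, zero_smul], add_zero] at hc
      exact (smul_eq_zero.1 hc).resolve_right (hw i)
    · exact key i hi

end eigen

section kummer

variable {F Ω : Type*} [Field F] [CharZero F] [Field Ω] [Algebra F Ω] [IsAlgClosure F Ω]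
  {ι : Type*}

/-- Products of square roots. -/
theorem sqrt_indep (D : ι → F) (w : ι → Ω) (hw : ∀ i, w i ^ 2 = algebraMap F Ω (D i))
    (hsq : ∀ S S' : Finset ι, S ≠ S' → ∀ a : F, a ^ 2 ≠ (∏ i ∈ S, D i) * ∏ i ∈ S', D i) :
    LinearIndependent F fun S : Finset ι => ∏ i ∈ S, w i := by
  classical
  have hD : ∀ i, D i ≠ 0 := by
    intro i h
    refine hsq {i} ∅ (by simp) 0 ?_
    rw [Finset.prod_singleton, h]
    simp
  have hw0 : ∀ i, w i ≠ 0 := by
    intro i h
    have h1 := hw i
    rw [h, zero_pow two_ne_zero, eq_comm, map_eq_zero] at h1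
    exact hD i h1
  have hpm : ∀ (g : Ω ≃ₐ[F] Ω) i, g (w i) = w i ∨ g (w i) = - w i := by
    intro g i
    have h1 : (g (w i)) ^ 2 = (w i) ^ 2 := by
      rw [← map_pow, hw, g.commutes]
    exact sq_eq_sq_iff_eq_or_eq_neg.1 h1
  set χ : ι → (Ω ≃ₐ[F] Ω) → F := fun i g => if g (w i) = w i then 1 else -1 with hχ
  have hχe : ∀ i g, g (w i) = algebraMap F Ω (χ i g) * w i := by
    intro i g
    by_cases h : g (w i) = w i
    · simp [hχ, h]
    · simp only [hχ, if_neg h, map_neg, map_one, neg_one_mul]
      exact (hpm g i).resolve_left h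
  have hχ2 : ∀ i g, χ i g ^ 2 = 1 := by
    intro i g
    by_cases h : g (w i) = w i
    · simp [hχ, h]
    · simp [hχ, h]
  have hχS : ∀ (S : Finset ι) (g : Ω ≃ₐ[F] Ω), g (∏ i ∈ S, w i) =
      algebraMap F Ω (∏ i ∈ S, χ i g) * ∏ i ∈ S, w i := by
    intro S g
    rw [map_prod, map_prod, ← Finset.prod_mul_distrib]
    exact Finset.prod_congr rfl fun i _ => hχe i g
  refine eigen_indep (G := Ω ≃ₐ[F] Ω) (fun g => g.toLinearMap) _ (fun S => ?_)
    (fun S g => ∏ i ∈ S, χ i g) (fun S g => ?_) fun S S' hSS' => ?_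
  · exact Finset.prod_ne_zero_iff.2 fun i _ => hw0 i
  · rw [Algebra.smul_def]
    exact hχS S g
  · by_contra hcon
    push Not at hcon
    have hfix : ∀ g : Ω ≃ₐ[F] Ω, g ((∏ i ∈ S, w i) * ∏ i ∈ S', w i) =
        (∏ i ∈ S, w i) * ∏ i ∈ S', w i := by
      intro g
      rw [map_mul, hχS, hχS, ← hcon g]
      have h1 : (algebraMap F Ω (∏ i ∈ S, χ i g)) * (algebraMap F Ω (∏ i ∈ S, χ i g)) = 1 := by
        rw [← map_mul, ← Finset.prod_mul_distrib, Finset.prod_eq_one fun i _ => by
          rw [← sq]; exact hχ2 i g, map_one]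
      linear_combination ((∏ i ∈ S, w i) * ∏ i ∈ S', w i) * h1
    haveI : IsGalois F Ω := IsAlgClosure.isGalois F Ω
    have h2 := (InfiniteGalois.mem_bot_iff_fixed ((∏ i ∈ S, w i) * ∏ i ∈ S', w i)).2 hfix
    obtain ⟨a, ha⟩ := IntermediateField.mem_bot.1 h2
    refine hsq S S' hSS' a ?_
    apply (algebraMap F Ω).injective
    rw [map_pow, ha, mul_pow, map_mul, map_prod, map_prod, ← Finset.prod_pow, ← Finset.prod_pow]
    congr 1
    · exact Finset.prod_congr rfl fun i _ => hw i
    · exact Finset.prod_congr rfl fun i _ => hw i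

end kummer

end Pool.Agent.Y797.HC
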