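import Pool.Agent.Y797.HC.Tor
import Pool.Agent.Y797.HC.Kum
set_option autoImplicit false

/-!
The coordinate ring is a domain.
-/

namespace Pool.Agent.Y797.HC

open MvPolynomial

open Pool.Agent.TH826.MK

variable {K : Type*} [Field K] {n m : ℕ} (A : Arr K n m)

/-- the polynomials `φ_e` in the variables `t_i` only -/
noncomputable def Arr.ph0 (e : Fin m) : MvPolynomial (Fin n) K :=
  Polynomial.aeval (∑ i, C (A.l e i) * X i) (A.F e)

/-- the discriminants -/
noncomputable def Arr.dis (e : Fin m) : MvPolynomial (Fin n) K := A.ph0 e ^ 2 - 4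

section nonsq

variable (σ : K →+* ℂ)

theorem Arr.eval_aeval0 (e : Fin m) (F : Polynomial K) (t : Fin n → ℂ) :
    eval₂Hom σ t (Polynomial.aeval (∑ i, C (A.l e i) * X i) F) =
      F.eval₂ σ (A.lin σ e t) := by
  rw [Polynomial.aeval_def, Polynomial.hom_eval₂]
  congr 1
  · ext y
    simp
  · unfold Arr.lin
    simp

theorem Arr.eval_dis (e : Fin m) (t : Fin n → ℂ) :
    eval₂Hom σ t (A.dis e) = A.val σ e t ^ 2 - 4 := by
  unfold Arr.dis Arr.ph0
  rw [map_sub, map_pow, A.eval_aeval0]
  simp [Arr.val]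

theorem Arr.pderiv_dis (e : Fin m) (t : Fin n → ℂ) (k : Fin n) :
    eval₂Hom σ t (pderiv k (A.dis e)) = 2 * A.val σ e t *
      (Polynomial.derivative (A.F e)).eval₂ σ (A.lin σ e t) * σ (A.l e k) := by
  have h4 : pderiv k (4 : MvPolynomial (Fin n) K) = 0 := by
    have : (4 : MvPolynomial (Fin n) K) = C 4 := (map_ofNat C 4).symm
    rw [this, pderiv_C]
  have h1 : ∀ i : Fin n, pderiv k (C (A.l e i) * X i : MvPolynomial (Fin n) K) =
      if i = k then C (A.l e i) else 0 := by
    intro i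
    rw [pderiv_C_mul]
    by_cases h : i = k
    · subst h
      rw [pderiv_X_self, if_pos rfl, mul_one]
    · rw [pderiv_X_of_ne h, mul_zero, if_neg h]
  unfold Arr.dis
  rw [map_sub, h4, sub_zero, Derivation.leibniz_pow]
  unfold Arr.ph0
  rw [Derivation.map_aeval, map_sum, Finset.sum_congr rfl fun i _ => h1 i,
    Finset.sum_ite_eq' Finset.univ k, if_pos (Finset.mem_univ _)]
  simp only [smul_eq_mul, nsmul_eq_mul, map_mul, pow_one, Nat.add_one_sub_one]
  rw [A.eval_aeval0, A.eval_aeval0]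
  unfold Arr.val
  simp
  ring

variable {σ A}

/-- the point at which exactly the discriminant of `P i` vanishes -/
theorem exists_point {P : Fin n → Fin m} (hB : A.Box σ P) (i : Fin n) : ∃ t : Fin n → ℂ,
    eval₂Hom σ t (A.dis (P i)) = 0 ∧ (∀ f, f ≠ P i → eval₂Hom σ t (A.dis f) ≠ 0) ∧
    ∃ k, eval₂Hom σ t (pderiv k (A.dis (P i))) ≠ 0 := by
  obtain ⟨t, H⟩ := exists_PD hB
  have hu0 : uu 0 = 2 := by
    unfold uu circ
    norm_num
  have hu1 : uu (1 / 4) = 0 := by
    have h1 : circ 1 (1 / 4) = Complex.I := by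
      unfold circ
      rw [Complex.ofReal_one, one_mul]
      have : 2 * (Real.pi : ℂ) * Complex.I * ((1 / 4 : ℝ) : ℂ) = Real.pi / 2 * Complex.I := by
        push_cast
        ring
      rw [this, Complex.exp_pi_div_two_mul_I]
    unfold uu
    rw [h1, Complex.inv_I]
    ring
  set θ : Fin n → ℝ := fun j => if j = i then 0 else 1 / 4 with hθ
  have hi : A.val σ (P i) (t θ) = 2 := by
    rw [H.val, hθ]
    simp only [if_true]
    exact hu0
  refine ⟨t θ, ?_, fun f hf => ?_, ?_⟩
  · rw [A.eval_dis, hi]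
    norm_num
  · rw [A.eval_dis]
    by_cases hfP : ∃ j, P j = f
    · obtain ⟨j, rfl⟩ := hfP
      have hj : j ≠ i := fun h => hf (by rw [h])
      rw [H.val, hθ]
      simp only [hj, if_false]
      rw [hu1]
      norm_num
    · push Not at hfP
      have h1 := H.far θ f hfP
      intro h
      have h2 : A.val σ f (t θ) ^ 2 = 4 := by linear_combination h
      have h3 := congrArg norm h2
      rw [norm_pow] at h3
      have h4 : ‖(4 : ℂ)‖ = 4 := by norm_num
      rw [h4] at h3
      nlinarith [norm_nonneg (A.val σ f (t θ))]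
  · by_contra hcon
    push Not at hcon
    refine hB.det (Matrix.det_eq_zero_of_row_eq_zero i fun k => ?_)
    have h1 := hcon k
    rw [A.pderiv_dis, hi] at h1
    have h2 : (2 : ℂ) * 2 * (Polynomial.derivative (A.F (P i))).eval₂ σ
        (A.lin σ (P i) (t θ)) ≠ 0 := mul_ne_zero (by norm_num) (H.der θ i)
    exact (map_eq_zero σ).1 ((mul_eq_zero.1 h1).resolve_left h2)

theorem nonsq_aux {P : Fin n → Fin m} (hB : A.Box σ P) (i : Fin n)
    {S S' : Finset (Fin m)} (h1 : P i ∈ S) (h2 : P i ∉ S') (G : MvPolynomial (Fin n) K) :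
    G ^ 2 ≠ (∏ e ∈ S, A.dis e) * ∏ e ∈ S', A.dis e := by
  classical
  intro h
  obtain ⟨t, ht0, htn, k, hk⟩ := exists_point hB i
  set Q : MvPolynomial (Fin n) K := (∏ e ∈ S.erase (P i), A.dis e) * ∏ e ∈ S', A.dis e with hQ
  have hG : G ^ 2 = A.dis (P i) * Q := by
    rw [h, ← Finset.mul_prod_erase S _ h1, hQ, mul_assoc]
  have hQt : eval₂Hom σ t Q ≠ 0 := by
    rw [hQ, map_mul, map_prod, map_prod]
    refine mul_ne_zero ?_ ?_
    · exact Finset.prod_ne_zero_iff.2 fun e he => htn e (Finset.ne_of_mem_erase he)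
    · exact Finset.prod_ne_zero_iff.2 fun e he => htn e fun h' => h2 (h' ▸ he)
  have hGt : eval₂Hom σ t G = 0 := by
    have h3 := congrArg (eval₂Hom σ t) hG
    rw [map_pow, map_mul, ht0, zero_mul] at h3
    exact pow_eq_zero_iff two_ne_zero |>.1 h3
  have hd := congrArg (fun p => eval₂Hom σ t (pderiv k p)) hG
  simp only [Derivation.leibniz_pow, Derivation.leibniz, smul_eq_mul, nsmul_eq_mul, map_mul,
    map_add, pow_one, Nat.add_one_sub_one, hGt, ht0, zero_mul, mul_zero, zero_add] at hd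
  exact mul_ne_zero hQt hk hd.symm

theorem nonsq (hcov : ∀ e, ∃ (P : Fin n → Fin m) (i : Fin n), A.Box σ P ∧ P i = e)
    {S S' : Finset (Fin m)} (hSS' : S ≠ S') (G : MvPolynomial (Fin n) K) :
    G ^ 2 ≠ (∏ e ∈ S, A.dis e) * ∏ e ∈ S', A.dis e := by
  classical
  obtain ⟨e, he⟩ : ∃ e, ¬ (e ∈ S ↔ e ∈ S') := by
    by_contra hcon
    push Not at hcon
    exact hSS' (Finset.ext hcon)
  obtain ⟨P, i, hB, rfl⟩ := hcov e
  by_cases h1 : P i ∈ S
  · exact nonsq_aux hB i h1 (fun h2 => he ⟨fun _ => h2, fun _ => h1⟩) G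
  · have h2 : P i ∈ S' := by
      by_contra h2
      exact he ⟨fun h => absurd h h1, fun h => absurd h h2⟩
    rw [mul_comm]
    exact nonsq_aux hB i h2 h1 G

end nonsq

section span

/-- the functions of the `t_i` on the variety -/
noncomputable def Arr.io : MvPolynomial (Fin n) K →+* A.CRing :=
  A.mkC.comp (rename (Sum.inl : Fin n → Fin n ⊕ Fin m)).toRingHom

theorem Arr.io_C (a : K) : A.io (C a) = A.cst a := by
  unfold Arr.io Arr.cst
  rw [RingHom.comp_apply]
  congr 1
  exact rename_C _ _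

theorem Arr.io_X (i : Fin n) : A.io (X i) = A.co (Sum.inl i) := by
  unfold Arr.io Arr.co
  rw [RingHom.comp_apply]
  congr 1
  exact rename_X _ _

theorem Arr.io_ph0 (e : Fin m) : A.io (A.ph0 e) = A.mkC (A.phi e) := by
  unfold Arr.io Arr.ph0 Arr.phi
  rw [RingHom.comp_apply]
  congr 1
  show (rename (Sum.inl : Fin n → Fin n ⊕ Fin m)) (Polynomial.aeval _ (A.F e)) = _
  rw [← Polynomial.aeval_algHom_apply]
  congr 1
  simp [map_sum]

/-- the square roots of the discriminants -/
noncomputable def Arr.ww (e : Fin m) : A.CRing := 2 * A.co (Sum.inr e) - A.io (A.ph0 e)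

theorem Arr.ww_sq (e : Fin m) : A.ww e * A.ww e = A.io (A.dis e) := by
  have h := A.eqn_zero e
  unfold Arr.ww Arr.dis
  rw [map_sub, map_pow, A.io_ph0]
  have h4 : A.io 4 = 4 := map_ofNat _ _
  rw [h4]
  linear_combination -4 * h

/-- the additive submonoid generated by the elements `b w_S` -/
noncomputable def Arr.VV : AddSubmonoid A.CRing :=
  AddSubmonoid.closure {x | ∃ (b : MvPolynomial (Fin n) K) (S : Finset (Fin m)),
    x = A.io b * ∏ e ∈ S, A.ww e}

theorem Arr.mem_VV (b : MvPolynomial (Fin n) K) (S : Finset (Fin m)) :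
    A.io b * ∏ e ∈ S, A.ww e ∈ A.VV := AddSubmonoid.subset_closure ⟨b, S, rfl⟩

theorem Arr.VV_mul {y : A.CRing} (hy : ∀ b S, (A.io b * ∏ e ∈ S, A.ww e) * y ∈ A.VV)
    {x : A.CRing} (hx : x ∈ A.VV) : x * y ∈ A.VV := by
  induction hx using AddSubmonoid.closure_induction with
  | mem x h =>
    obtain ⟨b, S, rfl⟩ := h
    exact hy b S
  | zero =>
    rw [zero_mul]
    exact A.VV.zero_mem
  | add x x' _ _ h1 h2 =>
    rw [add_mul]
    exact A.VV.add_mem h1 h2

theorem Arr.VV_mul_io (c : MvPolynomial (Fin n) K) {x : A.CRing} (hx : x ∈ A.VV) :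
    x * A.io c ∈ A.VV := by
  refine A.VV_mul (fun b S => ?_) hx
  have e : A.io b * (∏ e ∈ S, A.ww e) * A.io c = A.io (b * c) * ∏ e ∈ S, A.ww e := by
    rw [map_mul]
    ring
  rw [e]
  exact A.mem_VV _ _

theorem Arr.VV_mul_ww (f : Fin m) {x : A.CRing} (hx : x ∈ A.VV) : x * A.ww f ∈ A.VV := by
  classical
  refine A.VV_mul (fun b S => ?_) hx
  by_cases hf : f ∈ S
  · have e : A.io b * (∏ e ∈ S, A.ww e) * A.ww f =
        A.io (b * A.dis f) * ∏ e ∈ S.erase f, A.ww e := by
      rw [← Finset.mul_prod_erase S _ hf, map_mul, ← A.ww_sq]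
      ring
    rw [e]
    exact A.mem_VV _ _
  · have e : A.io b * (∏ e ∈ S, A.ww e) * A.ww f =
        A.io b * ∏ e ∈ insert f S, A.ww e := by
      rw [Finset.prod_insert hf]
      ring
    rw [e]
    exact A.mem_VV _ _

theorem Arr.VV_top [CharZero K] (x : A.CRing) : x ∈ A.VV := by
  obtain ⟨p, rfl⟩ := A.mkC_surjective x
  induction p using MvPolynomial.induction_on with
  | C c =>
    have h := A.mem_VV (C c) ∅
    rw [Finset.prod_empty, mul_one, A.io_C] at h
    exact h
  | add p q hp hq =>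
    rw [map_add]
    exact A.VV.add_mem hp hq
  | mul_X p k hp =>
    rw [map_mul]
    rcases k with k | k
    · have h := A.VV_mul_io (X k) hp
      rwa [A.io_X] at h
    · have h1 := A.VV_mul_ww k hp
      have h2 := A.VV_mul_io (A.ph0 k) hp
      have h3 := A.VV_mul_io (C (1 / 2)) (A.VV.add_mem h1 h2)
      have e : A.mkC p * A.mkC (X (Sum.inr k)) =
          (A.mkC p * A.ww k + A.mkC p * A.io (A.ph0 k)) * A.io (C (1 / 2)) := by
        have h5 : (2 : A.CRing) * A.io (C (1 / 2)) = 1 := by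
          have h7 : (2 : A.CRing) = A.io (C 2) := by
            rw [show (C 2 : MvPolynomial (Fin n) K) = 2 from map_ofNat C 2, map_ofNat]
          rw [h7, ← map_mul, ← map_mul]
          norm_num
        have h6 : A.mkC (X (Sum.inr k)) = A.co (Sum.inr k) := rfl
        rw [h6]
        unfold Arr.ww
        linear_combination -(A.mkC p) * A.co (Sum.inr k) * h5
      rw [e]
      exact h3

theorem Arr.exists_rep [CharZero K] (x : A.CRing) :
    ∃ b : Finset (Fin m) → MvPolynomial (Fin n) K, x = ∑ S, A.io (b S) * ∏ e ∈ S, A.ww e := by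
  classical
  have hx := A.VV_top x
  induction hx using AddSubmonoid.closure_induction with
  | mem x h =>
    obtain ⟨b, S, rfl⟩ := h
    refine ⟨fun T => if T = S then b else 0, ?_⟩
    rw [Finset.sum_eq_single S]
    · simp only [if_true]
    · intro T _ hT
      simp only [hT, if_false, map_zero, zero_mul]
    · exact fun h => absurd (Finset.mem_univ _) h
  | zero => exact ⟨fun _ => 0, by simp⟩
  | add x y _ _ h1 h2 =>
    obtain ⟨b, hb⟩ := h1
    obtain ⟨c, hc⟩ := h2
    refine ⟨fun S => b S + c S, ?_⟩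
    rw [hb, hc, ← Finset.sum_add_distrib]
    exact Finset.sum_congr rfl fun S _ => by rw [map_add, add_mul]

end span

/-- The coordinate ring is a domain. -/
theorem isDomain_CRing [CharZero K] (σ : K →+* ℂ)
    (hcov : ∀ e, ∃ (P : Fin n → Fin m) (i : Fin n), A.Box σ P ∧ P i = e) :
    IsDomain A.CRing := by
  classical
  set R := MvPolynomial (Fin n) K with hR
  set F := FractionRing R
  set Ω := AlgebraicClosure F
  have : CharZero F := charZero_of_injective_algebraMap (IsFractionRing.injective R F)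
  set j : R →+* Ω := (algebraMap F Ω).comp (algebraMap R F) with hj
  have hjinj : Function.Injective j := (algebraMap F Ω).injective.comp
    (IsFractionRing.injective R F)
  have hw : ∀ e, ∃ w : Ω, w ^ 2 = algebraMap F Ω (algebraMap R F (A.dis e)) := fun e =>
    IsAlgClosed.exists_pow_nat_eq _ (by norm_num)
  choose w hw using hw
  have hind := sqrt_indep (F := F) (Ω := Ω) (fun e => algebraMap R F (A.dis e)) w hw (by
    intro S S' hSS' a ha
    have hint : IsIntegral R (a ^ 2) := by
      rw [ha, ← map_prod, ← map_prod, ← map_mul]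
      exact isIntegral_algebraMap
    obtain ⟨G, hG⟩ := IsIntegrallyClosed.exists_algebraMap_eq_of_isIntegral_pow
      (by norm_num : 0 < 2) hint
    refine nonsq hcov hSS' G ?_
    apply IsFractionRing.injective R F
    rw [map_pow, hG, ha, map_mul, map_prod, map_prod])
  set ζ : Fin m → Ω := fun e => (w e + j (A.ph0 e)) / 2 with hζ
  set Φ0 : MvPolynomial (Fin n ⊕ Fin m) K →+* Ω :=
    eval₂Hom (j.comp C) (Sum.elim (fun i => j (X i)) ζ) with hΦ0
  have hren : ∀ b : R, Φ0 (rename Sum.inl b) = j b := by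
    intro b
    induction b using MvPolynomial.induction_on with
    | C c => simp [hΦ0]
    | add p q hp hq => simp only [map_add, hp, hq]
    | mul_X p k hp =>
      rw [map_mul, map_mul, hp, map_mul]
      congr 1
      simp [hΦ0]
  have hphi : ∀ e, Φ0 (A.phi e) = j (A.ph0 e) := by
    intro e
    rw [← hren]
    congr 1
    unfold Arr.phi Arr.ph0
    rw [← Polynomial.aeval_algHom_apply]
    congr 1
    simp [map_sum]
  have h2 : (2 : Ω) ≠ 0 := two_ne_zero
  have hker : ∀ e, Φ0 (A.eqn e) = 0 := by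
    intro e
    unfold Arr.eqn
    rw [map_add, map_sub, map_mul, map_pow, map_one, hphi]
    have h3 : Φ0 (X (Sum.inr e)) = (w e + j (A.ph0 e)) / 2 := by simp [hΦ0, hζ]
    have h4 : w e ^ 2 = j (A.ph0 e) ^ 2 - 4 := by
      rw [hw]
      show j (A.dis e) = _
      unfold Arr.dis
      rw [map_sub, map_pow, map_ofNat]
    rw [h3]
    linear_combination (1 / 4) * h4
  set Φ : A.CRing →+* Ω := A.lift Φ0 hker with hΦ
  have hΦio : ∀ b, Φ (A.io b) = j b := by
    intro b
    rw [← hren]
    exact A.lift_mkC _ _ _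
  have hΦco : ∀ e, Φ (A.co (Sum.inr e)) = ζ e := by
    intro e
    have h1 : Φ (A.co (Sum.inr e)) = Φ0 (X (Sum.inr e)) := A.lift_mkC _ _ _
    rw [h1]
    simp [hΦ0]
  have hΦw : ∀ e, Φ (A.ww e) = w e := by
    intro e
    unfold Arr.ww
    rw [map_sub, map_mul, hΦio, hΦco, map_ofNat]
    show 2 * ((w e + j (A.ph0 e)) / 2) - j (A.ph0 e) = w e
    ring
  have hinj : Function.Injective Φ := by
    rw [injective_iff_map_eq_zero]
    intro x hx
    obtain ⟨b, rfl⟩ := A.exists_rep x
    have h3 : ∑ S, (algebraMap R F (b S)) • ∏ e ∈ S, w e = 0 := by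
      rw [← hx, map_sum]
      refine Finset.sum_congr rfl fun S _ => ?_
      rw [map_mul, hΦio, map_prod, Algebra.smul_def]
      congr 1
      exact Finset.prod_congr rfl fun e _ => (hΦw e).symm
    have h4 := Fintype.linearIndependent_iff.1 hind _ h3
    refine Finset.sum_eq_zero fun S _ => ?_
    have h5 : b S = 0 := by
      apply IsFractionRing.injective R F
      rw [h4 S, map_zero]
    rw [h5, map_zero, zero_mul]
  exact hinj.isDomain Φ

end Pool.Agent.Y797.HC
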