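import Pool.Agent.Y797.HC.Def
import Pool.Agent.TH826.SX.Milnor
import Pool.Agent.TH826.MH.Ring
set_option autoImplicit false

/-!
The symbols of circuits are unramified at all discrete valuations.
-/

namespace Pool.Agent.Y797.HC

open Pool.Agent.TH826.MK

open Pool.Agent.TH826.SX

open scoped WithZero

section Milnor

variable {L : Type*} [Field L] {n : ℕ}

/-- The symbols with entries (on a non-empty subset) of sum zero vanish. -/
theorem symb_eq_zero_of_sum_zero (m : ℕ) : ∀ (T : Finset (Fin n)) (a : Fin n → Lˣ),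
    T.card = m + 1 → ∑ k ∈ T, (a k : L) = 0 → symb a = 0 := by
  classical
  induction m with
  | zero =>
    intro T a hT h
    obtain ⟨t, rfl⟩ := Finset.card_eq_one.1 hT
    rw [Finset.sum_singleton] at h
    exact absurd h (a t).ne_zero
  | succ m ih =>
    intro T a hT h
    obtain ⟨i, hi, j, hj, hij⟩ := Finset.one_lt_card.1 (show 1 < T.card by omega)
    by_cases hs : (a i : L) + a j = 0
    · refine symb_self_neg a hij (Units.ext ?_)
      rw [Units.val_neg]
      exact eq_neg_of_add_eq_zero_right hs
    · set s : Lˣ := Units.mk0 _ hs with hsdef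
      have hsv : (s : L) = a i + a j := rfl
      have hsum : ∑ k ∈ T, (a k : L) = a i + (a j + ∑ k ∈ (T.erase i).erase j, (a k : L)) := by
        rw [← Finset.add_sum_erase _ _ hi,
          ← Finset.add_sum_erase (T.erase i) _ (Finset.mem_erase.2 ⟨hij.symm, hj⟩)]
      have hU : ∀ k ∈ (T.erase i).erase j, k ≠ i ∧ k ≠ j := fun k hk =>
        ⟨Finset.ne_of_mem_erase (Finset.mem_of_mem_erase hk), Finset.ne_of_mem_erase hk⟩
      have c1 : symb (Function.update a i s) = 0 := by
        refine ih (T.erase j) _ (by rw [Finset.card_erase_of_mem hj, hT]; rfl) ?_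
        rw [← Finset.add_sum_erase (T.erase j) _ (Finset.mem_erase.2 ⟨hij, hi⟩),
          Function.update_self, hsv, Finset.erase_right_comm]
        rw [Finset.sum_congr rfl fun k hk => by rw [Function.update_of_ne (hU k hk).1]]
        rw [← h, hsum]
        ring
      have c2 : symb (Function.update a j s) = 0 := by
        refine ih (T.erase i) _ (by rw [Finset.card_erase_of_mem hi, hT]; rfl) ?_
        rw [← Finset.add_sum_erase (T.erase i) _ (Finset.mem_erase.2 ⟨hij.symm, hj⟩),
          Function.update_self, hsv]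
        rw [Finset.sum_congr rfl fun k hk => by rw [Function.update_of_ne (hU k hk).2]]
        rw [← h, hsum]
        ring
      have c3 : symb (Function.update (Function.update a i s) j s) = 0 :=
        symb_self _ hij (by rw [Function.update_self, Function.update_of_ne hij,
          Function.update_self])
      have c4 : symb (Function.update (Function.update a i (a i * s⁻¹)) j (a j * s⁻¹)) = 0 := by
        refine symb_eq_zero' _ hij ?_
        rw [Function.update_of_ne hij, Function.update_self, Function.update_self,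
          Units.val_mul, Units.val_mul, Units.val_inv_eq_inv_val, ← add_mul, hsv]
        exact mul_inv_cancel₀ hs
      have d1 : Function.update (Function.update a i (a i * s⁻¹)) j (a j) =
          Function.update a i (a i * s⁻¹) := by
        rw [Function.update_eq_self_iff, Function.update_of_ne hij.symm]
      have d2 : symb (Function.update (Function.update a i (a i * s⁻¹)) j s) = 0 := by
        rw [Function.update_comm hij, symb_update_mul, symb_upd_inv,
          Function.update_comm hij.symm, Function.update_comm hij.symm, c3, neg_zero, add_zero,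
          Function.update_eq_self]
        exact c2
      rw [symb_update_mul, d1, symb_upd_inv, d2, neg_zero, add_zero, symb_update_mul,
        symb_upd_inv, c1, neg_zero, add_zero, Function.update_eq_self] at c4
      exact c4

theorem symb_zero_of_sum {T : Finset (Fin n)} (hT : T.Nonempty) (a : Fin n → Lˣ)
    (h : ∑ k ∈ T, (a k : L) = 0) : symb a = 0 := by
  have h1 : T.card = (T.card - 1) + 1 := by
    have := Finset.card_pos.2 hT
    omega
  exact symb_eq_zero_of_sum_zero _ T a h1 h

/-- one-units -/
def OU (v : Valuation L ℤᵐ⁰) (x : L) : Prop := v (x - 1) < 1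

theorem OU.val {v : Valuation L ℤᵐ⁰} {x : L} (h : OU v x) : v x = 1 := val_one_of_sub_one h

theorem OU.mul {v : Valuation L ℤᵐ⁰} {x y : L} (hx : OU v x) (hy : OU v y) : OU v (x * y) := by
  unfold OU
  have e : x * y - 1 = (x - 1) * y + (y - 1) := by ring
  rw [e]
  refine (v.map_add _ _).trans_lt (max_lt ?_ hy)
  rw [map_mul, hy.val, mul_one]
  exact hx

theorem OU.one {v : Valuation L ℤᵐ⁰} : OU v (1 : L) := by
  unfold OU
  rw [sub_self, map_zero]
  exact zero_lt_one

theorem OU.inv {v : Valuation L ℤᵐ⁰} {x : L} (hx : OU v x) : OU v x⁻¹ := by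
  have h0 : x ≠ 0 := by
    intro h
    have := hx.val
    rw [h, map_zero] at this
    exact zero_ne_one this
  unfold OU
  have e : x⁻¹ - 1 = -((x - 1) * x⁻¹) := by
    rw [sub_mul, one_mul, mul_inv_cancel₀ h0]
    ring
  rw [e, Valuation.map_neg, map_mul, map_inv₀, hx.val, inv_one, mul_one]
  exact hx

theorem OU.pow {v : Valuation L ℤᵐ⁰} {x : L} (hx : OU v x) (k : ℕ) : OU v (x ^ k) := by
  induction k with
  | zero => rw [pow_zero]; exact OU.one
  | succ k ih => rw [pow_succ]; exact ih.mul hx

theorem OU.prod {v : Valuation L ℤᵐ⁰} {ι : Type*} (T : Finset ι) {x : ι → L}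
    (hx : ∀ i, OU v (x i)) : OU v (∏ i ∈ T, x i) := by
  classical
  induction T using Finset.induction_on with
  | empty => rw [Finset.prod_empty]; exact OU.one
  | insert i T hi ih => rw [Finset.prod_insert hi]; exact (hx i).mul ih

/-- Replacement of an entry by another one which is multiplicatively dependent on it modulo
one-units. -/
theorem mem_of_rep (v : Valuation L ℤᵐ⁰) (a : Fin n → Lˣ) (j : Fin n) (y : Lˣ) {m : ℕ}
    (hm : m ≠ 0) (k : ℤ) (h : OU v (((a j) ^ m * y ^ (-k) : Lˣ) : L))
    (hy : symb (Function.update a j y) ∈ unitPart v n) : symb a ∈ unitPart v n := by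
  set u : Lˣ := (a j) ^ m * y ^ (-k) with hu
  have h1 : (a j) ^ (m : ℤ) = y ^ k * u := by
    rw [hu, zpow_natCast, zpow_neg]
    rw [mul_comm ((a j) ^ m), mul_inv_cancel_left]
  have h2 : ((m : ℤ) : ℚ) • symb a ∈ unitPart v n := by
    have h3 := symb_update_zpow a j (a j) (m : ℤ)
    rw [Function.update_eq_self, h1, symb_update_mul, symb_update_zpow] at h3
    rw [← h3]
    refine Submodule.add_mem _ (Submodule.smul_mem _ _ hy) ?_
    refine mem_unitPart_of_oneUnit' v j _ ?_
    rw [Function.update_self]
    exact h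
  have hm' : (((m : ℤ)) : ℚ) ≠ 0 := by exact_mod_cast hm
  have h3 := (unitPart v n).smul_mem ((((m : ℤ)) : ℚ)⁻¹) h2
  rwa [smul_smul, inv_mul_cancel₀ hm', one_smul] at h3

theorem mem_of_rep_all (v : Valuation L ℤᵐ⁰) (a y : Fin n → Lˣ) (T : Finset (Fin n))
    (h : ∀ j ∈ T, ∃ m : ℕ, m ≠ 0 ∧ ∃ k : ℤ, OU v (((a j) ^ m * (y j) ^ (-k) : Lˣ) : L))
    (hy : symb (fun j => if j ∈ T then y j else a j) ∈ unitPart v n) :
    symb a ∈ unitPart v n := by
  classical
  induction T using Finset.induction_on with
  | empty => simpa using hy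
  | insert j T hj ih =>
    refine ih (fun i hi => h i (Finset.mem_insert_of_mem hi)) ?_
    obtain ⟨m, hm, k, hk⟩ := h j (Finset.mem_insert_self _ _)
    refine mem_of_rep v _ j (y j) hm k ?_ ?_
    · rw [if_neg hj]
      exact hk
    · have e : Function.update (fun i => if i ∈ T then y i else a i) j (y j) =
          fun i => if i ∈ insert j T then y i else a i := by
        funext i
        by_cases h : i = j
        · subst h; simp
        · simp [Function.update_of_ne h, h]
      rw [e]
      exact hy

end Milnor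

section val

variable {L : Type*} [Field L] (v : Valuation L ℤᵐ⁰)

/-- the solutions of `z + 1/z = φ` for integral `φ` are units -/
theorem val_z_of_le {z : Lˣ} {φ : L} (h : (z : L) + (z : L)⁻¹ = φ) (hφ : v φ ≤ 1) :
    v (z : L) = 1 := by
  have h0 : (z : L) ≠ 0 := z.ne_zero
  have key : ∀ w : L, w ≠ 0 → w + w⁻¹ = φ → v w ≤ 1 := by
    intro w hw hφ'
    by_contra hcon
    rw [not_le] at hcon
    have h1 : v w⁻¹ < 1 := by
      rw [map_inv₀]
      exact inv_lt_one_of_one_lt₀ hcon
    have h2 : v (w + w⁻¹) = v w := Valuation.map_add_eq_of_lt_left v (h1.trans hcon)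
    rw [hφ'] at h2
    exact absurd hφ (not_le.2 (by rw [h2]; exact hcon))
  refine le_antisymm (key _ h0 h) ?_
  have h1 := key (z : L)⁻¹ (inv_ne_zero h0) (by rw [inv_inv, add_comm]; exact h)
  rw [map_inv₀] at h1
  have h2 : 0 < v (z : L) := (Valuation.pos_iff v).2 h0
  exact (inv_le_one₀ h2).1 h1

/-- the solutions of `z + 1/z = φ` for non-integral `φ` are `φ` or `1/φ` modulo one-units -/
theorem ou_z_of_lt {z : Lˣ} {φ : L} (h : (z : L) + (z : L)⁻¹ = φ) (hφ : 1 < v φ) :
    OU v ((z : L) * φ⁻¹) ∨ OU v ((z : L) * φ) := by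
  have h0 : (z : L) ≠ 0 := z.ne_zero
  have hφ0 : φ ≠ 0 := by
    rintro rfl
    rw [map_zero] at hφ
    exact absurd hφ (not_lt.2 zero_le_one)
  have hφi : v φ⁻¹ < 1 := by
    rw [map_inv₀]
    exact inv_lt_one_of_one_lt₀ hφ
  by_cases hz : v (z : L) ≤ 1
  · right
    have h1 : 1 < v (z : L)⁻¹ := by
      by_contra hcon
      rw [not_lt] at hcon
      have := (v.map_add (z : L) (z : L)⁻¹).trans (max_le hz hcon)
      rw [h] at this
      exact absurd hφ (not_lt.2 this)
    have h2 : v (z : L) < 1 := by
      rw [map_inv₀] at h1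
      exact (one_lt_inv₀ ((Valuation.pos_iff v).2 h0)).1 h1
    unfold OU
    have e : (z : L) * φ - 1 = z ^ 2 := by
      rw [← h]
      field_simp
      ring
    rw [e, map_pow]
    exact pow_lt_one₀ zero_le h2 two_ne_zero
  · left
    rw [not_le] at hz
    have h1 : v (z : L)⁻¹ < 1 := by
      rw [map_inv₀]
      exact inv_lt_one_of_one_lt₀ hz
    unfold OU
    have e : (z : L) * φ⁻¹ - 1 = -((z : L)⁻¹ * φ⁻¹) := by
      have e1 : (z : L) = φ - (z : L)⁻¹ := by rw [← h]; ring
      have e2 : (z : L) * φ⁻¹ = 1 - (z : L)⁻¹ * φ⁻¹ := by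
        nth_rewrite 1 [e1]
        rw [sub_mul, mul_inv_cancel₀ hφ0]
      rw [e2]
      ring
    rw [e, Valuation.map_neg, map_mul]
    exact mul_lt_one_of_nonneg_of_lt_one_left zero_le h1 hφi.le

/-- the values of monic integral polynomials at non-integral elements are powers modulo
one-units -/
theorem ou_eval {F : Polynomial L} (hF : F.Monic) (hc : ∀ i, v (F.coeff i) ≤ 1) {x : L}
    (hx : 1 < v x) : OU v (F.eval x * (x ^ F.natDegree)⁻¹) := by
  have hx0 : x ≠ 0 := by
    rintro rfl
    rw [map_zero] at hx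
    exact absurd hx (not_lt.2 zero_le_one)
  have hxd : x ^ F.natDegree ≠ 0 := pow_ne_zero _ hx0
  have e : F.eval x = x ^ F.natDegree + ∑ i ∈ Finset.range F.natDegree, F.coeff i * x ^ i := by
    conv_lhs => rw [hF.as_sum]
    simp [Polynomial.eval_finset_sum]
  unfold OU
  have e2 : F.eval x * (x ^ F.natDegree)⁻¹ - 1 =
      (∑ i ∈ Finset.range F.natDegree, F.coeff i * x ^ i) * (x ^ F.natDegree)⁻¹ := by
    rw [e, add_mul, mul_inv_cancel₀ hxd]
    ring
  rw [e2, map_mul, map_inv₀]
  have hpos : 0 < v (x ^ F.natDegree) := (Valuation.pos_iff v).2 hxd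
  rw [mul_inv_lt_iff₀ hpos, one_mul]
  refine Valuation.map_sum_lt v hpos.ne' fun i hi => ?_
  rw [map_mul, map_pow, map_pow]
  calc v (F.coeff i) * v x ^ i ≤ 1 * v x ^ i := by gcongr; exact hc i
    _ < v x ^ F.natDegree := by
      rw [one_mul]
      exact pow_lt_pow_right₀ hx (Finset.mem_range.1 hi)

/-- the values of integral polynomials at integral elements -/
theorem val_eval_le {F : Polynomial L} (hc : ∀ i, v (F.coeff i) ≤ 1) {x : L} (hx : v x ≤ 1) :
    v (F.eval x) ≤ 1 := by
  rw [Polynomial.eval_eq_sum_range]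
  refine Valuation.map_sum_le _ fun i _ => ?_
  rw [map_mul, map_pow]
  exact mul_le_one' (hc i) (pow_le_one' hx _)

/-- The main lemma: the symbol `{z_0, ..., z_n}`, where `z_i + 1/z_i = F_i(x_i)` and
`∑ s_i x_i = 0`, with roots of unity `s_i`. -/
theorem symb_mem_unitPart {n M : ℕ} {F : Fin n → Polynomial L} (hF : ∀ i, (F i).Monic)
    (hd : ∀ i, (F i).natDegree ≠ 0) (hc : ∀ i j, v ((F i).coeff j) ≤ 1) {x s : Fin n → L}
    (z : Fin n → Lˣ) (hz : ∀ i, (z i : L) + (z i : L)⁻¹ = (F i).eval (x i)) (hM : M ≠ 0)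
    (hs : ∀ i, s i ^ M = 1) (hrel : ∑ i, s i * x i = 0) : symb z ∈ unitPart v n := by
  classical
  by_cases hB : ∃ i, 1 < v (x i)
  · obtain ⟨i0, hi0⟩ := hB
    have hs0 : ∀ i, s i ≠ 0 := by
      intro i h
      have := hs i
      rw [h, zero_pow hM] at this
      exact zero_ne_one this
    have hvs : ∀ i, v (s i) = 1 := by
      intro i
      have h1 := congrArg v (hs i)
      rw [map_pow, map_one] at h1
      exact (pow_eq_one_iff_of_nonneg zero_le hM).1 h1
    set T : Finset (Fin n) := Finset.univ.filter fun i => 1 < v (x i) with hT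
    have hxT : ∀ i ∈ T, x i ≠ 0 := by
      intro i hi h
      have h1 := (Finset.mem_filter.1 hi).2
      rw [h, map_zero] at h1
      exact absurd h1 (not_lt.2 zero_le_one)
    set y : Fin n → Lˣ := fun i => if h : x i = 0 then 1 else Units.mk0 (s i * x i)
      (mul_ne_zero (hs0 i) h) with hy
    have hyv : ∀ i ∈ T, (y i : L) = s i * x i := by
      intro i hi
      simp only [hy, dif_neg (hxT i hi), Units.val_mk0]
    refine mem_of_rep_all v z y T (fun i hi => ?_) ?_
    · have hxi : 1 < v (x i) := (Finset.mem_filter.1 hi).2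
      have hp := ou_eval v (hF i) (hc i) hxi
      have hx0 := hxT i hi
      set φ : L := (F i).eval (x i) with hφ
      have hvφ : 1 < v φ := by
        have h1 := hp.val
        rw [map_mul, map_inv₀, map_pow] at h1
        have h2 : v (x i) ^ (F i).natDegree ≠ 0 := pow_ne_zero _ ((Valuation.ne_zero_iff v).2 hx0)
        have h3 : v φ = v (x i) ^ (F i).natDegree := by
          rw [← one_mul (v (x i) ^ (F i).natDegree), ← h1, mul_assoc, inv_mul_cancel₀ h2, mul_one]
        rw [h3]
        exact one_lt_pow₀ hxi (hd i)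
      have hφ0 : φ ≠ 0 := by
        intro h
        rw [h, map_zero] at hvφ
        exact absurd hvφ (not_lt.2 zero_le_one)
      have hyM : (y i : L) ^ (M * (F i).natDegree) = (x i ^ (F i).natDegree) ^ M := by
        rw [hyv i hi, mul_pow, pow_mul, hs i, one_pow, one_mul, ← pow_mul, mul_comm M]
      rcases ou_z_of_lt v (hz i) hvφ with h1 | h1
      · refine ⟨M, hM, (M * (F i).natDegree : ℕ), ?_⟩
        have h2 := (h1.mul hp).pow M
        have e : ((((z i) ^ M * (y i) ^ (-((M * (F i).natDegree : ℕ) : ℤ)) : Lˣ)) : L) =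
            (((z i : L) * φ⁻¹) * (φ * (x i ^ (F i).natDegree)⁻¹)) ^ M := by
          rw [Units.val_mul, Units.val_pow_eq_pow_val, Units.val_zpow_eq_zpow_val, zpow_neg,
            zpow_natCast, hyM]
          have e1 : (z i : L) * φ⁻¹ * (φ * (x i ^ (F i).natDegree)⁻¹) = z i * (x i ^ (F i).natDegree)⁻¹ := by
            field_simp
          rw [e1, mul_pow, inv_pow]
        rw [e]
        exact h2
      · refine ⟨M, hM, -((M * (F i).natDegree : ℕ) : ℤ), ?_⟩
        have h2 := (h1.mul hp.inv).pow M
        have e : ((((z i) ^ M * (y i) ^ (-(-((M * (F i).natDegree : ℕ) : ℤ))) : Lˣ)) : L) =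
            (((z i : L) * φ) * (φ * (x i ^ (F i).natDegree)⁻¹)⁻¹) ^ M := by
          rw [Units.val_mul, Units.val_pow_eq_pow_val, Units.val_zpow_eq_zpow_val, neg_neg,
            zpow_natCast, hyM]
          have e1 : (z i : L) * φ * (φ * (x i ^ (F i).natDegree)⁻¹)⁻¹ = z i * (x i ^ (F i).natDegree) := by
            field_simp
          rw [e1, mul_pow]
        rw [e]
        exact h2
    · set b : Fin n → Lˣ := fun j => if j ∈ T then y j else z j with hb
      have hi0T : i0 ∈ T := Finset.mem_filter.2 ⟨Finset.mem_univ _, hi0⟩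
      set r : L := ∑ i ∈ Finset.univ.filter (fun i => ¬ 1 < v (x i)), s i * x i with hr
      have hvr : v r ≤ 1 := by
        refine Valuation.map_sum_le _ fun i hi => ?_
        rw [map_mul, hvs, one_mul]
        exact not_lt.1 (Finset.mem_filter.1 hi).2
      have hsumT : ∑ i ∈ T, (b i : L) + r = 0 := by
        rw [← hrel, ← Finset.sum_filter_add_sum_filter_not Finset.univ (fun i => 1 < v (x i))]
        congr 1
        refine Finset.sum_congr rfl fun i hi => ?_
        simp only [hb]
        rw [if_pos hi, hyv i hi]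
      have hb0 : (b i0 : L) = s i0 * x i0 := by
        simp only [hb]
        rw [if_pos hi0T, hyv i0 hi0T]
      have hvb : 1 < v (b i0 : L) := by
        rw [hb0, map_mul, hvs, one_mul]
        exact hi0
      have hvw : v ((b i0 : L) + r) = v (b i0 : L) :=
        Valuation.map_add_eq_of_lt_left v (hvr.trans_lt hvb)
      have hw0 : (b i0 : L) + r ≠ 0 := by
        intro h
        rw [h, map_zero] at hvw
        rw [← hvw] at hvb
        exact absurd hvb (not_lt.2 zero_le_one)
      set w : Lˣ := Units.mk0 _ hw0 with hw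
      refine mem_of_rep v b i0 w one_ne_zero 1 ?_ ?_
      · have e : (((b i0) ^ 1 * w ^ (-(1 : ℤ)) : Lˣ) : L) = (b i0 : L) * ((b i0 : L) + r)⁻¹ := by
          rw [pow_one, zpow_neg_one, Units.val_mul, Units.val_inv_eq_inv_val, hw, Units.val_mk0]
        rw [e]
        unfold OU
        have e2 : (b i0 : L) * ((b i0 : L) + r)⁻¹ - 1 = -(r * ((b i0 : L) + r)⁻¹) := by
          field_simp
          ring
        rw [e2, Valuation.map_neg, map_mul, map_inv₀, hvw]
        calc v r * (v (b i0 : L))⁻¹ ≤ 1 * (v (b i0 : L))⁻¹ := by gcongr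
          _ < 1 := by rw [one_mul]; exact inv_lt_one_of_one_lt₀ hvb
      · rw [symb_zero_of_sum ⟨i0, hi0T⟩]
        · exact Submodule.zero_mem _
        · rw [← Finset.add_sum_erase T _ hi0T, Function.update_self,
            Finset.sum_congr rfl fun k hk => by
              rw [Function.update_of_ne (Finset.ne_of_mem_erase hk)], hw, Units.val_mk0]
          rw [← Finset.add_sum_erase T _ hi0T] at hsumT
          linear_combination hsumT
  · push Not at hB
    refine Submodule.subset_span ⟨z, fun i => ?_, rfl⟩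
    exact val_z_of_le v (hz i) (val_eval_le v (hc i) (hB i))

end val

variable {K : Type*} [Field K] {n m : ℕ} {A : Arr K n m} {L : Type*} [Field L]
  (f : A.CRing →+* L)

theorem sym_mem_unramified (hint : A.Integral) {C : Fin (n + 1) → Fin m}
    (hC : A.Circuit C) : KQ.map (n + 1) f (A.sym C) ∈ Unramified L (n + 1) := by
  unfold Arr.sym
  rw [KQ.map_symb]
  unfold Unramified
  simp only [Submodule.mem_iInf]
  intro v _
  obtain ⟨s, M, hM, hs, hrel⟩ := hC.rel
  set F : MvPolynomial (Fin n ⊕ Fin m) K →+* L := f.comp A.mkC with hF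
  set g : K →+* L := F.comp MvPolynomial.C with hg
  refine symb_mem_unitPart v (F := fun i => (A.F (C i)).map g)
    (x := fun i => ∑ k, g (A.l (C i) k) * F (MvPolynomial.X (Sum.inl k))) (s := fun i => g (s i))
    (M := M) (fun i => (hint _).1.map g) (fun i => ?_) (fun i j => ?_) _ (fun i => ?_) hM
    (fun i => ?_) ?_
  · rw [Polynomial.natDegree_map]
    exact (hint _).2.1.ne'
  · rw [Polynomial.coeff_map]
    exact val_le_one_of_integral v (map_isIntegral_int g ((hint _).2.2 _))
  · have h1 : f (A.co (Sum.inr (C i))) * (F (A.phi (C i)) - f (A.co (Sum.inr (C i)))) = 1 := by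
      have h2 := congrArg f (A.eqn_zero (C i))
      rw [map_mul, map_sub, map_one] at h2
      exact h2
    have h3 : ((Units.map (f : A.CRing →* L) (A.unit (C i)) : Lˣ) : L) =
        f (A.co (Sum.inr (C i))) := rfl
    rw [h3]
    have h4 : (f (A.co (Sum.inr (C i))))⁻¹ = F (A.phi (C i)) - f (A.co (Sum.inr (C i))) :=
      inv_eq_of_mul_eq_one_right h1
    rw [h4, add_sub_cancel, Polynomial.eval_map]
    unfold Arr.phi
    rw [Polynomial.aeval_def, Polynomial.hom_eval₂, map_sum]
    congr 1
    exact Finset.sum_congr rfl fun k _ => by rw [map_mul]; rfl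
  · rw [← map_pow, hs, map_one]
  · have e : ∀ i, g (s i) * ∑ k, g (A.l (C i) k) * F (MvPolynomial.X (Sum.inl k)) =
        ∑ k, g (s i * A.l (C i) k) * F (MvPolynomial.X (Sum.inl k)) := by
      intro i
      rw [Finset.mul_sum]
      exact Finset.sum_congr rfl fun k _ => by rw [map_mul, mul_assoc]
    simp only [e]
    rw [Finset.sum_comm]
    refine Finset.sum_eq_zero fun k _ => ?_
    rw [← Finset.sum_mul, ← map_sum, hrel, map_zero, zero_mul]

end Pool.Agent.Y797.HC
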