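import Pool.Agent.TH826.MK.Torus
set_option autoImplicit false

/-!
Multiple double coverings of the affine space which are branched along translates of hyperplanes.
-/

namespace Pool.Agent.Y797.HC

open MvPolynomial

open Pool.Agent.TH826.MK (KQ symb Torus Unramified)

/-- `m` linear forms `l_1, ..., l_m` on the affine space of dimension `n` over `K`, and `m`
polynomials `F_1, ..., F_m` in one variable. -/
structure Arr (K : Type*) [Field K] (n m : ℕ) where
  /-- the coefficients of the linear forms -/
  l : Fin m → Fin n → K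
  /-- the polynomials -/
  F : Fin m → Polynomial K

variable {K : Type*} [Field K] {n m : ℕ} (A : Arr K n m)

/-- The polynomials `F_e` are monic, of positive degree, with integral coefficients. -/
def Arr.Integral : Prop :=
  ∀ e, (A.F e).Monic ∧ 0 < (A.F e).natDegree ∧ ∀ i, IsIntegral ℤ ((A.F e).coeff i)

/-- The polynomial `φ_e = F_e(l_e(t))`; the coordinates `t_i` of the affine space are the
variables `inl i`. -/
noncomputable def Arr.phi (e : Fin m) : MvPolynomial (Fin n ⊕ Fin m) K :=
  Polynomial.aeval (∑ i, C (A.l e i) * X (Sum.inl i)) (A.F e)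

/-- The equation `z_e² - φ_e z_e + 1`, that is `z_e + 1/z_e = φ_e`; `z_e` is the variable
`inr e`. -/
noncomputable def Arr.eqn (e : Fin m) : MvPolynomial (Fin n ⊕ Fin m) K :=
  X (Sum.inr e) ^ 2 - A.phi e * X (Sum.inr e) + 1

/-- The coordinate ring of the affine variety `z_e + 1/z_e = F_e(l_e(t))`, `e = 1, ..., m`. -/
def Arr.CRing : Type _ := MvPolynomial (Fin n ⊕ Fin m) K ⧸ Ideal.span (Set.range A.eqn)

noncomputable instance : CommRing A.CRing :=
  show CommRing (MvPolynomial (Fin n ⊕ Fin m) K ⧸ Ideal.span (Set.range A.eqn)) from inferInstance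

/-- The functions on the variety defined by the polynomials. -/
noncomputable def Arr.mkC : MvPolynomial (Fin n ⊕ Fin m) K →+* A.CRing :=
  Ideal.Quotient.mk (Ideal.span (Set.range A.eqn))

theorem Arr.mkC_surjective : Function.Surjective A.mkC := Ideal.Quotient.mk_surjective

theorem Arr.mkC_eqn (e : Fin m) : A.mkC (A.eqn e) = 0 :=
  Ideal.Quotient.eq_zero_iff_mem.2 (Ideal.subset_span ⟨e, rfl⟩)

/-- The universal property of the coordinate ring. -/
noncomputable def Arr.lift {B : Type*} [CommRing B] (f : MvPolynomial (Fin n ⊕ Fin m) K →+* B)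
    (h : ∀ e, f (A.eqn e) = 0) : A.CRing →+* B :=
  Ideal.Quotient.lift (Ideal.span (Set.range A.eqn)) f (by
    intro a ha
    have h1 : Ideal.span (Set.range A.eqn) ≤ RingHom.ker f := by
      rw [Ideal.span_le]
      rintro x ⟨e, rfl⟩
      exact h e
    exact h1 ha)

theorem Arr.lift_mkC {B : Type*} [CommRing B] (f : MvPolynomial (Fin n ⊕ Fin m) K →+* B)
    (h : ∀ e, f (A.eqn e) = 0) (p : MvPolynomial (Fin n ⊕ Fin m) K) :
    A.lift f h (A.mkC p) = f p :=
  Ideal.Quotient.lift_mk _ _ _

/-- The constants in the coordinate ring. -/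
noncomputable def Arr.cst (y : K) : A.CRing := A.mkC (C y)

/-- The coordinates `t_i` and `z_e`. -/
noncomputable def Arr.co (s : Fin n ⊕ Fin m) : A.CRing := A.mkC (X s)

theorem Arr.eqn_zero (e : Fin m) :
    A.co (Sum.inr e) * (A.mkC (A.phi e) - A.co (Sum.inr e)) = 1 := by
  have h := A.mkC_eqn e
  unfold Arr.eqn at h
  rw [map_add, map_sub, map_mul, map_pow, map_one] at h
  unfold Arr.co
  linear_combination -h

theorem Arr.eqn_zero' (e : Fin m) :
    (A.mkC (A.phi e) - A.co (Sum.inr e)) * A.co (Sum.inr e) = 1 := by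
  rw [mul_comm]
  exact A.eqn_zero e

/-- The unit `z_e` of the coordinate ring. -/
noncomputable def Arr.unit (e : Fin m) : A.CRingˣ where
  val := A.co (Sum.inr e)
  inv := A.mkC (A.phi e) - A.co (Sum.inr e)
  val_inv := A.eqn_zero e
  inv_val := A.eqn_zero' e

/-- The symbol `{z_{C 0}, ..., z_{C n}}`. -/
noncomputable def Arr.sym (C : Fin (n + 1) → Fin m) : KQ A.CRing (n + 1) :=
  symb fun i => A.unit (C i)

/-- `C` is a circuit: the `n + 1` linear forms `l_e`, `e = C 0, ..., C n`, satisfy a linear
relation, all coefficients of which are roots of unity. -/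
structure Arr.Circuit (C : Fin (n + 1) → Fin m) : Prop where
  inj : Function.Injective C
  rel : ∃ (s : Fin (n + 1) → K) (M : ℕ), M ≠ 0 ∧ (∀ i, s i ^ M = 1) ∧
    ∀ k, ∑ i, s i * A.l (C i) k = 0

/-- The values of the linear forms at complex points, for an embedding `σ` of `K`. -/
noncomputable def Arr.lin (σ : K →+* ℂ) (e : Fin m) (t : Fin n → ℂ) : ℂ :=
  ∑ i, σ (A.l e i) * t i

/-- The linear forms `l_e`, `e = P 1, ..., P n`, are linearly independent, and the arrangement is
separated over the point where `l_e` takes the value `b_{e,0}` for `e = P 1, ..., P n`: the complex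
roots `b_{e,j}` of `F_e`, `e = P 1, ..., P n`, have mutual distances at least `5`, and if `l_e(t)`
has distance less than `5/2` from `b_{e,0}`, for `e = P 1, ..., P n`, then `|F_f(l_f(t))| > 2` for
all `f` different from `P 1, ..., P n`. -/
structure Arr.Box (σ : K →+* ℂ) (P : Fin n → Fin m) : Prop where
  inj : Function.Injective P
  det : (Matrix.of fun i k : Fin n => A.l (P i) k).det ≠ 0
  sep : ∃ (g : Fin n → ℕ) (b : (i : Fin n) → Fin (g i + 1) → ℂ),
    (∀ i, (A.F (P i)).map σ = ∏ j, (Polynomial.X - Polynomial.C (b i j))) ∧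
    (∀ i j j', j ≠ j' → 5 ≤ ‖b i j - b i j'‖) ∧
    ∀ t : Fin n → ℂ, (∀ i, ‖A.lin σ (P i) t - b i 0‖ < 5 / 2) →
      ∀ f, (∀ i, P i ≠ f) → 2 < ‖(A.F f).eval₂ σ (A.lin σ f t)‖

/-- The Jacobian criterion at the complex point `p`: the gradients of the equations are linearly
independent. -/
def Arr.SmoothAt (σ : K →+* ℂ) (p : Fin n ⊕ Fin m → ℂ) : Prop :=
  LinearIndependent ℂ fun (e : Fin m) (s : Fin n ⊕ Fin m) => eval₂Hom σ p (pderiv s (A.eqn e))

/-- A torus in the smooth part of the complex points over `σ`. -/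
def Arr.Good (σ : K →+* ℂ) (T : Torus A.CRing n) : Prop :=
  (∀ θ (y : K), T.e θ (A.cst y) = σ y) ∧ ∀ θ, A.SmoothAt σ fun s => T.e θ (A.co s)

/-- The regulators of the symbols of the circuits `D_1, ..., D_N` are linearly independent: no
nontrivial real linear combination of them vanishes on all tori in the smooth part of the complex
points over `σ`. -/
def Arr.Indep (σ : K →+* ℂ) {N : ℕ} (D : Fin N → Fin (n + 1) → Fin m) : Prop :=
  ∀ a : Fin N → ℝ, (∀ T : Torus A.CRing n, A.Good σ T →
    ∑ k, a k * T.reg (A.sym (D k)) = 0) → a = 0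

end Pool.Agent.Y797.HC
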