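import Pool.Agent.Y797.HC.Def
import Pool.Agent.TH826.MK.Tori
import Pool.Agent.TH826.UH.Sep
set_option autoImplicit false

/-!
Evaluation at complex points, tori, smoothness, and the loops around the branch points.
-/

namespace Pool.Agent.Y797.HC

open MvPolynomial

open Pool.Agent.TH826.MK

section ev

variable {K : Type*} [Field K] (σ : K →+* ℂ) {n m : ℕ} (A : Arr K n m)

/-- the values of the polynomials `φ_e` -/
noncomputable def Arr.val (e : Fin m) (t : Fin n → ℂ) : ℂ := (A.F e).eval₂ σ (A.lin σ e t)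

theorem Arr.eval_aeval (e : Fin m) (F : Polynomial K) (t : Fin n → ℂ) (z : Fin m → ℂ) :
    eval₂Hom σ (Sum.elim t z) (Polynomial.aeval (∑ i, C (A.l e i) * X (Sum.inl i)) F) =
      F.eval₂ σ (A.lin σ e t) := by
  rw [Polynomial.aeval_def, Polynomial.hom_eval₂]
  congr 1
  · ext y
    simp
  · unfold Arr.lin
    simp

theorem Arr.eval_phi (e : Fin m) (t : Fin n → ℂ) (z : Fin m → ℂ) :
    eval₂Hom σ (Sum.elim t z) (A.phi e) = A.val σ e t := A.eval_aeval σ e _ t z

theorem Arr.eval_eqn (e : Fin m) (t : Fin n → ℂ) (z : Fin m → ℂ) :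
    eval₂Hom σ (Sum.elim t z) (A.eqn e) = z e ^ 2 - A.val σ e t * z e + 1 := by
  unfold Arr.eqn
  rw [map_add, map_sub, map_mul, map_pow, map_one, A.eval_phi]
  simp

/-- the complex points -/
def Arr.IsPt (t : Fin n → ℂ) (z : Fin m → ℂ) : Prop :=
  ∀ e, z e ^ 2 - A.val σ e t * z e + 1 = 0

variable {σ A}

/-- evaluation at a complex point -/
noncomputable def Arr.IsPt.ev {t : Fin n → ℂ} {z : Fin m → ℂ} (h : A.IsPt σ t z) :
    A.CRing →+* ℂ :=
  A.lift (eval₂Hom σ (Sum.elim t z)) fun e => by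
    rw [A.eval_eqn]
    exact h e

theorem Arr.IsPt.ev_mk {t : Fin n → ℂ} {z : Fin m → ℂ} (h : A.IsPt σ t z)
    (p : MvPolynomial (Fin n ⊕ Fin m) K) :
    h.ev (A.mkC p) = eval₂Hom σ (Sum.elim t z) p :=
  A.lift_mkC _ _ _

theorem Arr.IsPt.ev_cst {t : Fin n → ℂ} {z : Fin m → ℂ} (h : A.IsPt σ t z) (y : K) :
    h.ev (A.cst y) = σ y := by
  unfold Arr.cst
  rw [h.ev_mk]
  simp

theorem Arr.IsPt.ev_co {t : Fin n → ℂ} {z : Fin m → ℂ} (h : A.IsPt σ t z)
    (s : Fin n ⊕ Fin m) : h.ev (A.co s) = Sum.elim t z s := by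
  unfold Arr.co
  rw [h.ev_mk]
  simp

theorem Arr.IsPt.ev_congr {t t' : Fin n → ℂ} {z z' : Fin m → ℂ} (h : A.IsPt σ t z)
    (h' : A.IsPt σ t' z') (e1 : t = t') (e2 : z = z') : h.ev = h'.ev := by
  subst e1
  subst e2
  rfl

theorem Arr.contDiff_ev {d : ℕ} {t : (Fin d → ℝ) → Fin n → ℂ} {z : (Fin d → ℝ) → Fin m → ℂ}
    (h : ∀ θ, A.IsPt σ (t θ) (z θ)) (ht : ∀ i, ContDiff ℝ 2 fun θ => t θ i)
    (hz : ∀ e, ContDiff ℝ 2 fun θ => z θ e) (a : A.CRing) :
    ContDiff ℝ 2 fun θ => (h θ).ev a := by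
  obtain ⟨p, rfl⟩ := A.mkC_surjective a
  simp only [Arr.IsPt.ev_mk]
  induction p using MvPolynomial.induction_on with
  | C c => simpa using contDiff_const
  | add p q hp hq => simpa using hp.add hq
  | mul_X p k hp =>
    rcases k with k | k
    · simpa using hp.mul (ht k)
    · simpa using hp.mul (hz k)

/-- tori -/
noncomputable def Arr.mkT {d : ℕ} {t : (Fin d → ℝ) → Fin n → ℂ} {z : (Fin d → ℝ) → Fin m → ℂ}
    (h : ∀ θ, A.IsPt σ (t θ) (z θ)) (ht : ∀ i, ContDiff ℝ 2 fun θ => t θ i)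
    (hz : ∀ e, ContDiff ℝ 2 fun θ => z θ e) (hpt : ∀ θ i, t (θ + Pi.single i 1) = t θ)
    (hpz : ∀ θ i, z (θ + Pi.single i 1) = z θ) : Torus A.CRing d where
  e θ := (h θ).ev
  smooth := Arr.contDiff_ev h ht hz
  periodic θ i := Arr.IsPt.ev_congr _ _ (hpt θ i) (hpz θ i)

end ev

section smooth

variable {K : Type*} [Field K] (σ : K →+* ℂ) {n m : ℕ} (A : Arr K n m)

theorem Arr.pderiv_inl (e : Fin m) (t : Fin n → ℂ) (z : Fin m → ℂ) (k : Fin n) :
    eval₂Hom σ (Sum.elim t z) (pderiv (Sum.inl k) (A.eqn e)) =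
      -((Polynomial.derivative (A.F e)).eval₂ σ (A.lin σ e t) * z e) * σ (A.l e k) := by
  unfold Arr.eqn Arr.phi
  rw [map_add, map_sub, Derivation.leibniz, Derivation.leibniz_pow, pderiv_one,
    Derivation.map_aeval, map_sum]
  have h1 : ∀ i : Fin n, pderiv (Sum.inl k : Fin n ⊕ Fin m)
      (C (A.l e i) * X (Sum.inl i) : MvPolynomial (Fin n ⊕ Fin m) K) =
      if i = k then C (A.l e i) else 0 := by
    intro i
    rw [pderiv_C_mul]
    by_cases h : i = k
    · subst h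
      rw [pderiv_X_self, if_pos rfl, mul_one]
    · rw [pderiv_X_of_ne (fun h' => h (Sum.inl_injective h'.symm).symm), mul_zero, if_neg h]
  rw [Finset.sum_congr rfl fun i _ => h1 i, Finset.sum_ite_eq' Finset.univ k,
    if_pos (Finset.mem_univ _), pderiv_X_of_ne (by simp)]
  simp only [smul_eq_mul, mul_zero, zero_sub, smul_zero, add_zero, zero_add]
  rw [map_neg, map_mul, map_mul, coe_eval₂Hom, eval₂_C, eval₂_X, Sum.elim_inr]
  have h2 := A.eval_aeval σ e (Polynomial.derivative (A.F e)) t z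
  rw [coe_eval₂Hom] at h2
  rw [h2]
  ring

theorem Arr.pderiv_inr (e f : Fin m) (t : Fin n → ℂ) (z : Fin m → ℂ) :
    eval₂Hom σ (Sum.elim t z) (pderiv (Sum.inr f) (A.eqn e)) =
      if e = f then 2 * z e - A.val σ e t else 0 := by
  have hphi : pderiv (Sum.inr f : Fin n ⊕ Fin m) (A.phi e) = 0 := by
    have hs : ∑ i, pderiv (Sum.inr f : Fin n ⊕ Fin m)
        (C (A.l e i) * X (Sum.inl i) : MvPolynomial (Fin n ⊕ Fin m) K) = 0 := by
      refine Finset.sum_eq_zero fun i _ => ?_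
      rw [pderiv_C_mul, pderiv_X_of_ne (by simp), mul_zero]
    unfold Arr.phi
    rw [Derivation.map_aeval, map_sum, hs, smul_zero]
  unfold Arr.eqn
  rw [map_add, map_sub, Derivation.leibniz, Derivation.leibniz_pow, pderiv_one, hphi]
  by_cases h : e = f
  · subst h
    rw [pderiv_X_self, if_pos rfl]
    simp only [smul_eq_mul, mul_zero, add_zero, mul_one]
    rw [map_sub, A.eval_phi]
    simp
  · rw [pderiv_X_of_ne (fun h' => h (Sum.inr_injective h')), if_neg h]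
    simp

end smooth

end Pool.Agent.Y797.HC
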