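import Pool.Agent.Y797.HC.Dom
import Pool.Agent.Y797.HC.Unr
set_option autoImplicit false

/-!
The main theorem on the symbols of circuits.
-/

namespace Pool.Agent.Y797.HC

open Pool.Agent.TH826.MK

theorem main.{u, v} (n m N : ℕ) (K : Type u) [Field K] [CharZero K] (σ : K →+* ℂ)
    (A : Arr K n m) (hA : A.Integral) (D : Fin N → Fin (n + 1) → Fin m)
    (hD : ∀ k, A.Circuit (D k)) (hdist : ∀ k k', Set.range (D k) = Set.range (D k') → k = k')
    (hB : ∀ k, A.Box σ fun i => D k i.succ)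
    (hcov : ∀ e, ∃ (P : Fin n → Fin m) (i : Fin n), A.Box σ P ∧ P i = e) :
    IsDomain A.CRing ∧
      (∀ (L : Type v) [Field L] [Algebra A.CRing L] [IsFractionRing A.CRing L] (k : Fin N),
        KQ.map (n + 1) (algebraMap A.CRing L) (A.sym (D k)) ∈ Unramified L (n + 1)) ∧
      A.Indep σ D :=
  ⟨isDomain_CRing A σ hcov, fun _ _ _ _ k => sym_mem_unramified _ hA (hD k),
    independent D (fun k => (hD k).inj) hdist hB⟩

end Pool.Agent.Y797.HC
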